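import Pool.Agent.BEX.OPDefs

/-!
# BEX/A3 (architect helper63): rapidities to zero. Definitions.

Part (A2) gives, for distinct rapidities `u_j = -i j ε / 2` (`j < L`, `ε ≠ 0` real and small), a vector
`x_j` and numbers `P`, `X` with `∑_j kap ((i-j) ε) x_j = -P` for all `i` (even `L`), resp. `= 0` and
`∑_j x_j = P` (odd `L`), and `∑_j e^{j ε} x_j = X`.  Part (A3) finds the limit of `X / P`.

PAPER PROOF.  The functional `F ↦ ∑_j x_j F(j ε)` is `F ↦ ∑_{m<L} yc_m ε^{-m} (Δ_ε^m F)(0)` (Newton), with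
`yc_m = ε^m ∑_j C(j,m) x_j`.  Taking also `m`-th differences in `i`, the relations become
`∑_{m'} Km(m,m') yc_{m'} = -P δ_{m0}` (resp. `0`), with
`Km(m,m') = (-1)^{m'} ε^{-(m+m')} (Δ_ε^{m+m'} kap)(-m' ε) → K0(m,m') = (-1)^{m'} kap^{(m+m')}(0)`.
`kap` is odd and `kap^{(2j+1)}(0) = (-1)^j ip(X^j, 1)` (moments of the weight, `OPMom.lean`), so `K0` couples
even and odd orders by a Hankel matrix of moments, positive definite.  So `yc/P` converges to the solution of
the limit system, which is a reproducing kernel at `0` (even `L`) resp. an orthogonal polynomial (odd `L`),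
and `X = ∑ ((e^ε-1)/ε)^m yc_m → ∑ y_m = ` value at `-1`.
-/

namespace Pool.Agent.BEX.A3

open Polynomial

/-- Newton coefficients (scaled) of the functional `F ↦ ∑ x_j F(j ε)`. -/
noncomputable def yc {L : ℕ} (x : Fin L → ℂ) (ε : ℝ) (m : ℕ) : ℂ :=
  (ε : ℂ) ^ m * ∑ j : Fin L, (((j : ℕ).choose m : ℕ) : ℂ) * x j

/-- The matrix at `ε`. -/
noncomputable def Km (ε : ℝ) (m m' : ℕ) : ℝ :=
  (-1) ^ m' * ((fwdDiff ε)^[m + m'] kap (-(m' : ℝ) * ε) / ε ^ (m + m'))

/-- The limit matrix. -/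
noncomputable def K0 (m m' : ℕ) : ℝ := (-1) ^ m' * iteratedDeriv (m + m') kap 0

/-- The moments of the weight. -/
noncomputable def mom (j : ℕ) : ℝ := ip (X ^ j) 1

end Pool.Agent.BEX.A3
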