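import Pool.Agent.BEX.A3.Defs

/-!
# BEX/A3/Fd: scaled finite differences converge to derivatives

PAPER PROOF.  `fd_tendsto`: Taylor at `0`: `f t = ∑_{k≤r} f^{(k)}(0)/k! t^k + o(t^r)` (`taylor_mean_remainder` or
`ContDiffAt` little o form), `fwdDiff_iter_eq_sum_shift`: `Δ_ε^r f (a ε) = ∑_s (-1)^{r-s} C(r,s) f((a+s) ε)`;
the polynomial part gives `ε^k Δ_1^r (· ^ k) (a)`, which is `0` for `k < r` and `r!` for `k = r`
(`fwdDiff_iter_pow_eq_zero_of_lt`, `fwdDiff_iter_eq_factorial`); divide by `ε^r`.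
(Alternative: induction on `r` with the mean value theorem.)
-/

namespace Pool.Agent.BEX.A3

open Filter Topology

/-- the sum form of the iterated difference -/
private theorem fd_sum (f : ℝ → ℝ) (r : ℕ) (a ε : ℝ) :
    (fwdDiff ε)^[r] f (a * ε) =
      ∑ s ∈ Finset.range (r + 1), (((-1 : ℤ) ^ (r - s) * r.choose s : ℤ) : ℝ) * f ((a + s) * ε) := by
  rw [fwdDiff_iter_eq_sum_shift]
  refine Finset.sum_congr rfl fun s _ => ?_
  rw [zsmul_eq_mul, nsmul_eq_mul]
  congr 2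
  ring

/-- the remainder is small along the rays -/
private theorem fd_rem (R : ℝ → ℝ) (r : ℕ) (hR : R =o[𝓝 0] fun x : ℝ => x ^ r) (b : ℝ) :
    Tendsto (fun ε : ℝ => R (b * ε) / ε ^ r) (𝓝[≠] 0) (𝓝 0) := by
  have h1 : Tendsto (fun ε : ℝ => b * ε) (𝓝[≠] 0) (𝓝 0) := by
    have : Tendsto (fun ε : ℝ => b * ε) (𝓝 0) (𝓝 (b * 0)) := tendsto_id.const_mul b
    rw [mul_zero] at this
    exact this.mono_left nhdsWithin_le_nhds
  have h2 : (fun ε : ℝ => R (b * ε)) =o[𝓝[≠] 0] fun ε : ℝ => (b * ε) ^ r := hR.comp_tendsto h1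
  have h3 : (fun ε : ℝ => (b * ε) ^ r) =O[𝓝[≠] 0] fun ε : ℝ => ε ^ r := by
    refine Asymptotics.IsBigO.of_bound (|b| ^ r) (Filter.Eventually.of_forall fun ε => ?_)
    rw [norm_pow, norm_mul, norm_pow, mul_pow, Real.norm_eq_abs]
  exact (h2.trans_isBigO h3).tendsto_div_nhds_zero

/-- scaled differences converge to the derivative -/
theorem fd_tendsto (f : ℝ → ℝ) (hf : ∀ n : ℕ, ContDiff ℝ n f) (r : ℕ) (a : ℝ) :
    Tendsto (fun ε : ℝ => (fwdDiff ε)^[r] f (a * ε) / ε ^ r) (𝓝[≠] 0) (𝓝 (iteratedDeriv r f 0)) := by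
  set R : ℝ → ℝ := fun x => f x - taylorWithinEval f r Set.univ 0 x with hRd
  have hR : R =o[𝓝 0] fun x : ℝ => x ^ r := by
    have h := taylor_isLittleO_univ (x₀ := 0) (hf r)
    simpa using h
  have hT : ∀ x : ℝ, taylorWithinEval f r Set.univ 0 x =
      ∑ k ∈ Finset.range (r + 1), ((k.factorial : ℝ)⁻¹ * iteratedDeriv k f 0) * x ^ k := by
    intro x
    rw [taylor_within_apply]
    refine Finset.sum_congr rfl fun k _ => ?_
    rw [iteratedDerivWithin_univ, sub_zero, smul_eq_mul]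
    ring
  have hD : ∀ k ∈ Finset.range (r + 1),
      ∑ s ∈ Finset.range (r + 1), (((-1 : ℤ) ^ (r - s) * r.choose s : ℤ) : ℝ) * (a + s) ^ k =
        if k = r then (r.factorial : ℝ) else 0 := by
    intro k hk
    have h1 := fd_sum (fun x => x ^ k) r a 1
    simp only [mul_one] at h1
    rw [← h1]
    split_ifs with hkr
    · subst hkr
      have h2 := congrFun (fwdDiff_iter_eq_factorial (R := ℝ) (n := k)) a
      rw [h2]
      rfl
    · have hlt : k < r := lt_of_le_of_ne (Nat.lt_succ_iff.mp (Finset.mem_range.mp hk)) hkr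
      have h2 := congrFun (fwdDiff_iter_pow_eq_zero_of_lt (R := ℝ) hlt) a
      rw [h2]
      rfl
  have hP : ∀ ε : ℝ, ∑ s ∈ Finset.range (r + 1), (((-1 : ℤ) ^ (r - s) * r.choose s : ℤ) : ℝ) *
      taylorWithinEval f r Set.univ 0 ((a + s) * ε) = iteratedDeriv r f 0 * ε ^ r := by
    intro ε
    have h1 : ∀ s ∈ Finset.range (r + 1), (((-1 : ℤ) ^ (r - s) * r.choose s : ℤ) : ℝ) *
        taylorWithinEval f r Set.univ 0 ((a + s) * ε) =
        ∑ k ∈ Finset.range (r + 1), ((k.factorial : ℝ)⁻¹ * iteratedDeriv k f 0 * ε ^ k) *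
          ((((-1 : ℤ) ^ (r - s) * r.choose s : ℤ) : ℝ) * (a + s) ^ k) := by
      intro s _
      rw [hT, Finset.mul_sum]
      refine Finset.sum_congr rfl fun k _ => ?_
      rw [mul_pow]
      ring
    rw [Finset.sum_congr rfl h1, Finset.sum_comm]
    have h2 : ∀ k ∈ Finset.range (r + 1),
        ∑ s ∈ Finset.range (r + 1), ((k.factorial : ℝ)⁻¹ * iteratedDeriv k f 0 * ε ^ k) *
          ((((-1 : ℤ) ^ (r - s) * r.choose s : ℤ) : ℝ) * (a + s) ^ k) =
        if k = r then iteratedDeriv r f 0 * ε ^ r else 0 := by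
      intro k hk
      rw [← Finset.mul_sum, hD k hk]
      split_ifs with hkr
      · subst hkr
        have : (k.factorial : ℝ) ≠ 0 := by exact_mod_cast k.factorial_ne_zero
        field_simp
      · rw [mul_zero]
    rw [Finset.sum_congr rfl h2, Finset.sum_ite_eq' (Finset.range (r + 1)) r]
    simp
  have hE : ∀ ε : ℝ, ε ≠ 0 → (fwdDiff ε)^[r] f (a * ε) / ε ^ r = iteratedDeriv r f 0 +
      ∑ s ∈ Finset.range (r + 1), (((-1 : ℤ) ^ (r - s) * r.choose s : ℤ) : ℝ) *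
        (R ((a + s) * ε) / ε ^ r) := by
    intro ε hε
    have hεr : ε ^ r ≠ 0 := pow_ne_zero _ hε
    rw [fd_sum, div_eq_iff hεr, add_mul, Finset.sum_mul, ← hP ε, ← Finset.sum_add_distrib]
    refine Finset.sum_congr rfl fun s _ => ?_
    simp only [hRd]
    field_simp
    ring
  have hlim : Tendsto (fun ε : ℝ => iteratedDeriv r f 0 +
      ∑ s ∈ Finset.range (r + 1), (((-1 : ℤ) ^ (r - s) * r.choose s : ℤ) : ℝ) *
        (R ((a + s) * ε) / ε ^ r)) (𝓝[≠] 0) (𝓝 (iteratedDeriv r f 0 +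
      ∑ s ∈ Finset.range (r + 1), (((-1 : ℤ) ^ (r - s) * r.choose s : ℤ) : ℝ) * 0)) :=
    (tendsto_const_nhds).add (tendsto_finsetSum _ fun s _ => (fd_rem R r hR (a + s)).const_mul _)
  simp only [mul_zero, Finset.sum_const_zero, add_zero] at hlim
  refine hlim.congr' ?_
  filter_upwards [self_mem_nhdsWithin] with ε hε
  exact (hE ε hε).symm

/-- `kap` is smooth -/
theorem kap_contDiff (n : ℕ) : ContDiff ℝ n kap := by
  have h : kap = fun t => Real.sinh t / (Real.cosh t + Real.sqrt 2 / 2) := rfl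
  rw [h]
  refine Real.contDiff_sinh.div (Real.contDiff_cosh.add contDiff_const) fun t => ?_
  have h1 := Real.one_le_cosh t
  have h2 := Real.sqrt_nonneg 2
  positivity

/-- convergence of the matrix -/
theorem Km_tendsto (m m' : ℕ) :
    Tendsto (fun ε : ℝ => Km ε m m') (𝓝[≠] 0) (𝓝 (K0 m m')) := by
  have h := (fd_tendsto kap kap_contDiff (m + m') (-(m' : ℝ))).const_mul ((-1 : ℝ) ^ m')
  exact h

end Pool.Agent.BEX.A3
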