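import Pool.Agent.BEX.A3.Defs
import Pool.Agent.BEX.OPMom
import Pool.Agent.BEX.OPPos

/-!
# BEX/A3/HankE: the limit system, even circumference `L = 2 n`

PAPER PROOF.  By `kap_deriv`, `kap_deriv_even`: `K0 m m' = 0` if `m + m'` is even, and
`K0 (2a) (2b+1) = -(-1)^{a+b} mom (a+b)`, `K0 (2b+1) (2a) = (-1)^{a+b} mom (a+b)`.
INJECTIVE: if `K0 v = 0`, rows `2b+1`: `∑_a (-1)^a v_{2a} mom(a+b) = 0` for all `b < n`; with
`q = ∑_{a<n} (-1)^a v_{2a} X^a` this is `ip q (X^b) = 0` for `b < n`, so `ip q q = 0`, `q = 0` (`ip_pos`).  Rows `2a`: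
the same for `v_{2b+1}`.  SOLUTION: the matrix is injective, hence surjective: take `v` with `K0 v = -e_0`;
`v_{2a} = 0` as above, and `s = ∑_{b<n} (-1)^b v_{2b+1} X^b` has `ip s (X^a) = δ_{a0}` for `a < n`, so
`ip s q = q(0)` for `natDegree q < n`; `∑ v = ∑_b v_{2b+1} = s(-1)`.
(Lemmas on `ip`: `OPPos.lean`: `ip_comm`, `ip_add_left`, `ip_smul_left`, `ip_mul_left`, `ip_pos`.)
-/

namespace Pool.Agent.BEX.A3

open Polynomial

theorem K0_even (a b : ℕ) : K0 (2 * a) (2 * b + 1) = -((-1) ^ (a + b) * mom (a + b)) := by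
  unfold K0 mom
  have h1 : 2 * a + (2 * b + 1) = 2 * (a + b) + 1 := by ring
  rw [h1, kap_deriv, pow_succ, pow_mul]
  norm_num

theorem K0_odd (a b : ℕ) : K0 (2 * b + 1) (2 * a) = (-1) ^ (a + b) * mom (a + b) := by
  unfold K0 mom
  have h1 : 2 * b + 1 + 2 * a = 2 * (a + b) + 1 := by ring
  rw [h1, kap_deriv, pow_mul]
  norm_num

theorem K0_zero (m m' : ℕ) (h : Even (m + m')) : K0 m m' = 0 := by
  unfold K0
  obtain ⟨r, hr⟩ := h
  rw [hr, ← two_mul, kap_deriv_even, mul_zero]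

private theorem HankE_sum (q : ℝ[X]) {ι : Type} (t : Finset ι) (f : ι → ℝ[X]) :
    ip (∑ i ∈ t, f i) q = ∑ i ∈ t, ip (f i) q := by
  classical
  induction t using Finset.induction_on with
  | empty =>
    rw [Finset.sum_empty, Finset.sum_empty]
    have h := ip_smul_left 0 0 q
    rw [mul_zero, zero_mul] at h
    exact h
  | insert a t ha ih => rw [Finset.sum_insert ha, Finset.sum_insert ha, ip_add_left, ih]

private theorem HankE_expand (p q : ℝ[X]) (n : ℕ) (hp : p.natDegree < n) :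
    ip p q = ∑ a ∈ Finset.range n, p.coeff a * ip (X ^ a) q := by
  have h := Polynomial.as_sum_range_C_mul_X_pow' p hp
  conv_lhs => rw [h]
  rw [HankE_sum]
  exact Finset.sum_congr rfl fun a _ => ip_smul_left _ _ _

private theorem HankE_XX (a b : ℕ) : ip (X ^ a) (X ^ b) = mom (a + b) := by
  have h := ip_mul_left (X ^ b) (X ^ a) 1
  rw [mul_one, ← pow_add] at h
  unfold mom
  rw [← h, add_comm]

/-- `ip` of polynomials in terms of moments -/
theorem ip_mom (p : ℝ[X]) (b n : ℕ) (hp : p.natDegree < n) :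
    ip p (X ^ b) = ∑ a ∈ Finset.range n, p.coeff a * mom (a + b) := by
  rw [HankE_expand p _ n hp]
  exact Finset.sum_congr rfl fun a _ => by rw [HankE_XX]

/-- the polynomial with coefficients `(-1)^a w a`, `a < n` -/
private noncomputable def HankE_P (n : ℕ) (w : ℕ → ℝ) : ℝ[X] :=
  ∑ a ∈ Finset.range n, C ((-1) ^ a * w a) * X ^ a

private theorem HankE_deg (n : ℕ) (hn : 1 ≤ n) (w : ℕ → ℝ) : (HankE_P n w).natDegree < n := by
  unfold HankE_P
  have h : (∑ a ∈ Finset.range n, C ((-1) ^ a * w a) * X ^ a : ℝ[X]).natDegree ≤ n - 1 := by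
    refine natDegree_sum_le_of_forall_le _ _ fun a ha => ?_
    have h1 := Finset.mem_range.mp ha
    exact (natDegree_C_mul_X_pow_le _ _).trans (by omega)
  omega

private theorem HankE_coeff (n : ℕ) (w : ℕ → ℝ) {a : ℕ} (ha : a < n) :
    (HankE_P n w).coeff a = (-1) ^ a * w a := by
  unfold HankE_P
  rw [finsetSum_coeff]
  simp only [coeff_C_mul, coeff_X_pow, mul_ite, mul_one, mul_zero]
  rw [Finset.sum_ite_eq, if_pos (Finset.mem_range.mpr ha)]

private theorem HankE_ip (n : ℕ) (hn : 1 ≤ n) (w : ℕ → ℝ) (b : ℕ) : ip (HankE_P n w) (X ^ b) =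
    (-1) ^ b * ∑ a ∈ Finset.range n, (-1) ^ (a + b) * mom (a + b) * w a := by
  rw [ip_mom _ b n (HankE_deg n hn w), Finset.mul_sum]
  refine Finset.sum_congr rfl fun a ha => ?_
  rw [HankE_coeff n w (Finset.mem_range.mp ha)]
  have h : ((-1 : ℝ)) ^ b * (-1) ^ (a + b) = (-1) ^ a := by
    rw [← pow_add, show b + (a + b) = a + 2 * b by ring, pow_add, pow_mul]
    norm_num
  calc (-1) ^ a * w a * mom (a + b) = ((-1 : ℝ) ^ b * (-1) ^ (a + b)) * w a * mom (a + b) := by rw [h]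
    _ = _ := by ring

private theorem HankE_L1 (n : ℕ) (w : ℕ → ℝ)
    (h : ∀ b < n, ∑ a ∈ Finset.range n, (-1) ^ (a + b) * mom (a + b) * w a = 0) :
    ∀ a < n, w a = 0 := by
  intro a ha
  have hn : 1 ≤ n := by omega
  have h1 : ∀ b < n, ip (HankE_P n w) (X ^ b) = 0 := by
    intro b hb
    rw [HankE_ip n hn w b, h b hb, mul_zero]
  have h2 : ip (HankE_P n w) (HankE_P n w) = 0 := by
    rw [HankE_expand _ _ n (HankE_deg n hn w)]
    refine Finset.sum_eq_zero fun b hb => ?_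
    rw [ip_comm, h1 b (Finset.mem_range.mp hb), mul_zero]
  have h3 : HankE_P n w = 0 := by
    by_contra hne
    exact (ip_pos hne).ne' h2
  have h4 := HankE_coeff n w ha
  rw [h3, coeff_zero] at h4
  have h5 : ((-1 : ℝ)) ^ a ≠ 0 := pow_ne_zero _ (by norm_num)
  exact (mul_eq_zero.mp h4.symm).resolve_left h5

private theorem HankE_pairs (n : ℕ) (f : ℕ → ℝ) :
    ∑ m ∈ Finset.range (2 * n), f m = ∑ a ∈ Finset.range n, (f (2 * a) + f (2 * a + 1)) := by
  induction n with
  | zero => simp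
  | succ n ih =>
    rw [show 2 * (n + 1) = 2 * n + 1 + 1 by ring, Finset.sum_range_succ, Finset.sum_range_succ, ih,
      Finset.sum_range_succ, add_assoc]

private theorem HankE_rowE (n a : ℕ) (w : ℕ → ℝ) :
    ∑ m ∈ Finset.range (2 * n), K0 (2 * a) m * w m =
      -∑ b ∈ Finset.range n, (-1) ^ (b + a) * mom (b + a) * w (2 * b + 1) := by
  rw [HankE_pairs, ← Finset.sum_neg_distrib]
  refine Finset.sum_congr rfl fun b _ => ?_
  rw [K0_zero (2 * a) (2 * b) ⟨a + b, by ring⟩, K0_even, add_comm a b]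
  ring

private theorem HankE_rowO (n b : ℕ) (w : ℕ → ℝ) :
    ∑ m ∈ Finset.range (2 * n), K0 (2 * b + 1) m * w m =
      ∑ a ∈ Finset.range n, (-1) ^ (a + b) * mom (a + b) * w (2 * a) := by
  rw [HankE_pairs]
  refine Finset.sum_congr rfl fun a _ => ?_
  rw [K0_zero (2 * b + 1) (2 * a + 1) ⟨a + b + 1, by ring⟩, K0_odd]
  ring

/-- extension of a vector by zero -/
private noncomputable def HankE_ext {N : ℕ} (v : Fin N → ℝ) (m : ℕ) : ℝ :=
  if h : m < N then v ⟨m, h⟩ else 0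

private theorem HankE_ext_val {N : ℕ} (v : Fin N → ℝ) (m : Fin N) : HankE_ext v m = v m := by
  unfold HankE_ext
  rw [dif_pos m.2]

private theorem HankE_row {N : ℕ} (v : Fin N → ℝ) (m : ℕ) :
    ∑ m' : Fin N, K0 m m' * v m' = ∑ m' ∈ Finset.range N, K0 m m' * HankE_ext v m' := by
  rw [← Fin.sum_univ_eq_sum_range (fun m' => K0 m m' * HankE_ext v m')]
  exact Finset.sum_congr rfl fun m' _ => by rw [HankE_ext_val]

theorem even_inj (n : ℕ) (v : Fin (2 * n) → ℝ) (h : ∀ m : Fin (2 * n), ∑ m' : Fin (2 * n), K0 m m' * v m' = 0) :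
    v = 0 := by
  have h0 : ∀ m < 2 * n, ∑ m' ∈ Finset.range (2 * n), K0 m m' * HankE_ext v m' = 0 := by
    intro m hm
    rw [← HankE_row]
    exact h ⟨m, hm⟩
  have h1 : ∀ a < n, HankE_ext v (2 * a) = 0 :=
    HankE_L1 n (fun a => HankE_ext v (2 * a)) fun b hb => by
      rw [← HankE_rowO]
      exact h0 _ (by omega)
  have h2 : ∀ b < n, HankE_ext v (2 * b + 1) = 0 :=
    HankE_L1 n (fun b => HankE_ext v (2 * b + 1)) fun a ha => by
      have h3 := h0 (2 * a) (by omega)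
      rw [HankE_rowE, neg_eq_zero] at h3
      exact h3
  funext m
  rw [← HankE_ext_val v m, Pi.zero_apply]
  rcases Nat.even_or_odd' (m : ℕ) with ⟨a, ha | ha⟩
  · rw [ha]
    exact h1 a (by have := m.2; omega)
  · rw [ha]
    exact h2 a (by have := m.2; omega)

theorem even_sol (n : ℕ) (hn : 1 ≤ n) : ∃ (v : Fin (2 * n) → ℝ) (s : ℝ[X]), s.natDegree < n ∧
    (∀ q : ℝ[X], q.natDegree < n → ip s q = q.eval 0) ∧
    (∀ m : Fin (2 * n), ∑ m' : Fin (2 * n), K0 m m' * v m' = if (m : ℕ) = 0 then -1 else 0) ∧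
    ∑ m' : Fin (2 * n), v m' = s.eval (-1) := by
  let A : Matrix (Fin (2 * n)) (Fin (2 * n)) ℝ := Matrix.of fun m m' => K0 m m'
  have hA : ∀ v m, A.mulVecLin v m = ∑ m' : Fin (2 * n), K0 m m' * v m' := fun v m => rfl
  have hinj : Function.Injective A.mulVecLin := by
    rw [injective_iff_map_eq_zero]
    intro v hv
    refine even_inj n v fun m => ?_
    rw [← hA, hv]
    rfl
  have hsurj : Function.Surjective A.mulVecLin := LinearMap.injective_iff_surjective.mp hinj
  obtain ⟨v, hv⟩ := hsurj fun m => if (m : ℕ) = 0 then -1 else 0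
  have h0 : ∀ m : Fin (2 * n), ∑ m' : Fin (2 * n), K0 m m' * v m' = if (m : ℕ) = 0 then -1 else 0 := by
    intro m
    rw [← hA, hv]
  have h0' : ∀ m < 2 * n, ∑ m' ∈ Finset.range (2 * n), K0 m m' * HankE_ext v m' =
      if m = 0 then -1 else 0 := by
    intro m hm
    rw [← HankE_row]
    exact h0 ⟨m, hm⟩
  have h1 : ∀ a < n, HankE_ext v (2 * a) = 0 :=
    HankE_L1 n (fun a => HankE_ext v (2 * a)) fun b hb => by
      rw [← HankE_rowO, h0' _ (by omega), if_neg (by omega)]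
  have h2 : ∀ a < n, ip (HankE_P n fun b => HankE_ext v (2 * b + 1)) (X ^ a) = if a = 0 then 1 else 0 := by
    intro a ha
    have h3 := h0' (2 * a) (by omega)
    rw [HankE_rowE] at h3
    have h4 : ∑ b ∈ Finset.range n, (-1) ^ (b + a) * mom (b + a) * HankE_ext v (2 * b + 1) =
        if a = 0 then 1 else 0 := by
      by_cases ha0 : a = 0
      · rw [if_pos (by omega)] at h3
        rw [if_pos ha0]
        linarith
      · rw [if_neg (by omega)] at h3
        rw [if_neg ha0]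
        linarith
    rw [HankE_ip n hn, h4]
    by_cases ha0 : a = 0
    · rw [if_pos ha0, ha0]
      norm_num
    · rw [if_neg ha0, mul_zero]
  refine ⟨v, HankE_P n fun b => HankE_ext v (2 * b + 1), HankE_deg n hn _, ?_, h0, ?_⟩
  · intro q hq
    rw [ip_comm, HankE_expand q _ n hq, ← coeff_zero_eq_eval_zero]
    rw [Finset.sum_eq_single_of_mem 0 (Finset.mem_range.mpr (by omega))]
    · rw [ip_comm, h2 0 (by omega), if_pos rfl, mul_one]
    · intro a ha ha0
      rw [ip_comm, h2 a (Finset.mem_range.mp ha), if_neg ha0, mul_zero]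
  · have h5 : ∑ m' : Fin (2 * n), v m' = ∑ m' ∈ Finset.range (2 * n), HankE_ext v m' := by
      rw [← Fin.sum_univ_eq_sum_range (fun m' => HankE_ext v m')]
      exact Finset.sum_congr rfl fun m' _ => by rw [HankE_ext_val]
    rw [h5, HankE_pairs]
    unfold HankE_P
    rw [eval_finsetSum]
    refine Finset.sum_congr rfl fun b hb => ?_
    rw [h1 b (Finset.mem_range.mp hb), eval_mul, eval_C, eval_pow, eval_X, zero_add]
    have h6 : ((-1 : ℝ)) ^ b * (-1) ^ b = 1 := by
      rw [← pow_add, ← two_mul, pow_mul]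
      norm_num
    calc HankE_ext v (2 * b + 1) = ((-1 : ℝ) ^ b * (-1) ^ b) * HankE_ext v (2 * b + 1) := by
          rw [h6, one_mul]
      _ = _ := by ring

end Pool.Agent.BEX.A3
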