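import Pool.Agent.BEX.A3.HankE

/-!
# BEX/A3/HankO: the limit system, odd circumference `L = 2 n + 1`

Rows: row `0` of `Ko` is the condition `y_0 = P`; row `i + 1` is row `i` of `K0`, `i < 2 n`.
PAPER PROOF.  INJECTIVE: rows of `K0` with `m = 2a`, `a < n`: `∑_{b<n} (-1)^b v_{2b+1} mom(a+b) = 0`, so the odd part
of `v` is `0` as in `even_inj`.  Rows `m = 2b+1`, `b < n`: `q = ∑_{a≤n} (-1)^a v_{2a} X^a` is orthogonal to
`X^b`, `b < n`; `q(0) = v_0 = 0`, so `q = X r`, `natDegree r < n`, `ip (X r) r = 0`, so `r = 0` (`ip_pos_X`: the form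
`ip (X f) f` is `≥ 0` (`ip_X_nonneg`); if it is `0` at `r`, then at `r + t X r` it is `2 t ip (X r) (X r) + t² ..`, `≥ 0` for all
`t`, so `ip (X r) (X r) = 0`, `X r = 0`).
SOLUTION: injective, hence surjective: take `v` with `v_0 = 1` and the other rows `0`; `p = ∑_{a≤n} (-1)^a v_{2a} X^a`
is orthogonal to degree `< n`, `p(0) = 1`, `∑ v = ∑_a v_{2a} = p(-1)` (the odd part is `0`).
-/

namespace Pool.Agent.BEX.A3

open Polynomial

/-- the matrix for odd circumference: row `0` is `e_0`, then the first `2 n` rows of the matrix `A` -/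
noncomputable def Ko (A : ℕ → ℕ → ℝ) (m m' : ℕ) : ℝ := if m = 0 then (if m' = 0 then 1 else 0) else A (m - 1) m'

theorem ip_pos_X {r : ℝ[X]} (hr : ip (X * r) r = 0) : r = 0 := by
  have h1 : ∀ t : ℝ, 0 ≤ 2 * t * ip (X * r) (X * r) + t ^ 2 * ip (X * (X * r)) (X * r) := by
    intro t
    have h := ip_X_nonneg (r + C t * (X * r))
    have e1 : X * (r + C t * (X * r)) = X * r + C t * (X * (X * r)) := by ring
    have e2 : ∀ p : ℝ[X], ip p (r + C t * (X * r)) = ip p r + t * ip p (X * r) := by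
      intro p
      rw [ip_comm, ip_add_left, ip_smul_left, ip_comm r p, ip_comm (X * r) p]
    rw [e2, e1, ip_add_left, ip_add_left, ip_smul_left, ip_smul_left, hr, ip_mul_left X (X * r) r] at h
    nlinarith [h]
  have h2 := ip_self_nonneg (X * r)
  have h3 := ip_X_nonneg (X * r)
  have h4 : ip (X * r) (X * r) = 0 := by
    by_contra hne
    have h5 : 0 < ip (X * r) (X * r) := lt_of_le_of_ne h2 (Ne.symm hne)
    obtain ⟨a, ha⟩ : ∃ a, a = ip (X * r) (X * r) := ⟨_, rfl⟩
    obtain ⟨c, hc⟩ : ∃ c, c = ip (X * (X * r)) (X * r) := ⟨_, rfl⟩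
    have h6 := h1 (-(a / (c + 1)))
    rw [← ha] at h5
    rw [← hc] at h3
    rw [← ha, ← hc] at h6
    have hc1 : 0 < c + 1 := by linarith
    have h7 : 2 * -(a / (c + 1)) * a + (-(a / (c + 1))) ^ 2 * c = -(a ^ 2 * (c + 2)) / (c + 1) ^ 2 := by
      field_simp
      ring
    rw [h7] at h6
    have h8 : 0 < a ^ 2 * (c + 2) / (c + 1) ^ 2 := by positivity
    rw [neg_div] at h6
    linarith
  have h5 : (X * r : ℝ[X]) = 0 := by
    by_contra hne
    exact (ip_pos hne).ne' h4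
  exact (mul_eq_zero.mp h5).resolve_left X_ne_zero

private theorem HankO_sum (q : ℝ[X]) {ι : Type} (t : Finset ι) (f : ι → ℝ[X]) :
    ip (∑ i ∈ t, f i) q = ∑ i ∈ t, ip (f i) q := by
  classical
  induction t using Finset.induction_on with
  | empty =>
    rw [Finset.sum_empty, Finset.sum_empty]
    have h := ip_smul_left 0 0 q
    rw [mul_zero, zero_mul] at h
    exact h
  | insert a t ha ih => rw [Finset.sum_insert ha, Finset.sum_insert ha, ip_add_left, ih]

private theorem HankO_expand (p q : ℝ[X]) (n : ℕ) (hp : p.natDegree < n) :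
    ip p q = ∑ a ∈ Finset.range n, p.coeff a * ip (X ^ a) q := by
  have h := Polynomial.as_sum_range_C_mul_X_pow' p hp
  conv_lhs => rw [h]
  rw [HankO_sum]
  exact Finset.sum_congr rfl fun a _ => ip_smul_left _ _ _

/-- the polynomial with coefficients `(-1)^a w a`, `a < n` -/
private noncomputable def HankO_P (n : ℕ) (w : ℕ → ℝ) : ℝ[X] :=
  ∑ a ∈ Finset.range n, C ((-1) ^ a * w a) * X ^ a

private theorem HankO_deg (n : ℕ) (w : ℕ → ℝ) : (HankO_P (n + 1) w).natDegree ≤ n := by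
  unfold HankO_P
  refine natDegree_sum_le_of_forall_le _ _ fun a ha => ?_
  have h1 := Finset.mem_range.mp ha
  exact (natDegree_C_mul_X_pow_le _ _).trans (by omega)

private theorem HankO_coeff (n : ℕ) (w : ℕ → ℝ) {a : ℕ} (ha : a < n) :
    (HankO_P n w).coeff a = (-1) ^ a * w a := by
  unfold HankO_P
  rw [finsetSum_coeff]
  simp only [coeff_C_mul, coeff_X_pow, mul_ite, mul_one, mul_zero]
  rw [Finset.sum_ite_eq, if_pos (Finset.mem_range.mpr ha)]

private theorem HankO_ip (n : ℕ) (w : ℕ → ℝ) (b : ℕ) : ip (HankO_P (n + 1) w) (X ^ b) =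
    (-1) ^ b * ∑ a ∈ Finset.range (n + 1), (-1) ^ (a + b) * mom (a + b) * w a := by
  have hd := HankO_deg n w
  rw [ip_mom _ b (n + 1) (by omega), Finset.mul_sum]
  refine Finset.sum_congr rfl fun a ha => ?_
  rw [HankO_coeff (n + 1) w (Finset.mem_range.mp ha)]
  have h : ((-1 : ℝ)) ^ b * (-1) ^ (a + b) = (-1) ^ a := by
    rw [← pow_add, show b + (a + b) = a + 2 * b by ring, pow_add, pow_mul]
    norm_num
  calc (-1) ^ a * w a * mom (a + b) = ((-1 : ℝ) ^ b * (-1) ^ (a + b)) * w a * mom (a + b) := by rw [h]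
    _ = _ := by ring

private theorem HankO_orth (n : ℕ) (w : ℕ → ℝ)
    (h : ∀ b < n, ∑ a ∈ Finset.range (n + 1), (-1) ^ (a + b) * mom (a + b) * w a = 0) (q : ℝ[X])
    (hq : q.natDegree < n) : ip (HankO_P (n + 1) w) q = 0 := by
  rw [ip_comm, HankO_expand q _ n hq]
  refine Finset.sum_eq_zero fun b hb => ?_
  rw [ip_comm, HankO_ip, h b (Finset.mem_range.mp hb), mul_zero, mul_zero]

/-- the odd part -/
private theorem HankO_L1 (n : ℕ) (w : ℕ → ℝ)
    (h : ∀ b < n, ∑ a ∈ Finset.range n, (-1) ^ (a + b) * mom (a + b) * w a = 0) :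
    ∀ a < n, w a = 0 := by
  intro a ha
  obtain ⟨m, rfl⟩ : ∃ m, n = m + 1 := ⟨n - 1, by omega⟩
  have h1 : ∀ b < m + 1, ip (HankO_P (m + 1) w) (X ^ b) = 0 := by
    intro b hb
    rw [HankO_ip, h b hb, mul_zero]
  have hd := HankO_deg m w
  have h2 : ip (HankO_P (m + 1) w) (HankO_P (m + 1) w) = 0 := by
    rw [HankO_expand _ _ (m + 1) (by omega)]
    refine Finset.sum_eq_zero fun b hb => ?_
    rw [ip_comm, h1 b (Finset.mem_range.mp hb), mul_zero]
  have h3 : HankO_P (m + 1) w = 0 := by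
    by_contra hne
    exact (ip_pos hne).ne' h2
  have h4 := HankO_coeff (m + 1) w ha
  rw [h3, coeff_zero] at h4
  have h5 : ((-1 : ℝ)) ^ a ≠ 0 := pow_ne_zero _ (by norm_num)
  exact (mul_eq_zero.mp h4.symm).resolve_left h5

/-- the even part -/
private theorem HankO_L2 (n : ℕ) (w : ℕ → ℝ) (h0 : w 0 = 0)
    (h : ∀ b < n, ∑ a ∈ Finset.range (n + 1), (-1) ^ (a + b) * mom (a + b) * w a = 0) :
    ∀ a < n + 1, w a = 0 := by
  intro a ha
  obtain ⟨q, hq⟩ : ∃ q, q = HankO_P (n + 1) w := ⟨_, rfl⟩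
  have hd : q.natDegree ≤ n := by
    rw [hq]
    exact HankO_deg n w
  have hc : q.coeff 0 = 0 := by
    rw [hq, HankO_coeff (n + 1) w (Nat.succ_pos n), h0, mul_zero]
  have hX : X * q.divX = q := by
    have h1 := Polynomial.X_mul_divX_add q
    rw [hc, C_0, add_zero] at h1
    exact h1
  have hq0 : q = 0 := by
    by_contra hne
    have hr : q.divX ≠ 0 := by
      intro hr
      rw [hr, mul_zero] at hX
      exact hne hX.symm
    have hdr : q.divX.natDegree < n := by
      have h1 : (X * q.divX).natDegree = q.divX.natDegree + 1 := natDegree_X_mul hr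
      rw [hX] at h1
      omega
    have h2 : ip (X * q.divX) q.divX = 0 := by
      rw [hX]
      conv_lhs => rw [hq]
      refine HankO_orth n w h _ ?_
      rw [← hq]
      exact hdr
    exact hr (ip_pos_X h2)
  have h4 := HankO_coeff (n + 1) w ha
  rw [← hq, hq0, coeff_zero] at h4
  have h5 : ((-1 : ℝ)) ^ a ≠ 0 := pow_ne_zero _ (by norm_num)
  exact (mul_eq_zero.mp h4.symm).resolve_left h5

private theorem HankO_pairs (n : ℕ) (f : ℕ → ℝ) :
    ∑ m ∈ Finset.range (2 * n + 1), f m =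
      ∑ a ∈ Finset.range (n + 1), f (2 * a) + ∑ a ∈ Finset.range n, f (2 * a + 1) := by
  induction n with
  | zero => simp
  | succ n ih =>
    rw [show 2 * (n + 1) + 1 = 2 * n + 1 + 1 + 1 by ring, Finset.sum_range_succ,
      Finset.sum_range_succ, ih, Finset.sum_range_succ _ (n + 1), Finset.sum_range_succ _ n,
      Finset.sum_range_succ (fun a => f (2 * a + 1)) n,
      show 2 * (n + 1) = 2 * n + 1 + 1 by ring]
    ring

private theorem HankO_rowE (n a : ℕ) (w : ℕ → ℝ) :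
    ∑ m ∈ Finset.range (2 * n + 1), K0 (2 * a) m * w m =
      -∑ b ∈ Finset.range n, (-1) ^ (b + a) * mom (b + a) * w (2 * b + 1) := by
  rw [HankO_pairs, ← Finset.sum_neg_distrib]
  rw [Finset.sum_eq_zero, zero_add]
  · refine Finset.sum_congr rfl fun b _ => ?_
    rw [K0_even, add_comm a b]
    ring
  · intro b _
    rw [K0_zero (2 * a) (2 * b) ⟨a + b, by ring⟩, zero_mul]

private theorem HankO_rowO (n b : ℕ) (w : ℕ → ℝ) :
    ∑ m ∈ Finset.range (2 * n + 1), K0 (2 * b + 1) m * w m =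
      ∑ a ∈ Finset.range (n + 1), (-1) ^ (a + b) * mom (a + b) * w (2 * a) := by
  rw [HankO_pairs]
  rw [Finset.sum_eq_zero (f := fun a => K0 (2 * b + 1) (2 * a + 1) * w (2 * a + 1)), add_zero]
  · refine Finset.sum_congr rfl fun a _ => ?_
    rw [K0_odd]
  · intro a _
    rw [K0_zero (2 * b + 1) (2 * a + 1) ⟨a + b + 1, by ring⟩, zero_mul]

/-- extension of a vector by zero -/
private noncomputable def HankO_ext {N : ℕ} (v : Fin N → ℝ) (m : ℕ) : ℝ :=
  if h : m < N then v ⟨m, h⟩ else 0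

private theorem HankO_ext_val {N : ℕ} (v : Fin N → ℝ) (m : Fin N) : HankO_ext v m = v m := by
  unfold HankO_ext
  rw [dif_pos m.2]

private theorem HankO_row {N : ℕ} (A : ℕ → ℝ) (v : Fin N → ℝ) :
    ∑ m' : Fin N, A m' * v m' = ∑ m' ∈ Finset.range N, A m' * HankO_ext v m' := by
  rw [← Fin.sum_univ_eq_sum_range (fun m' => A m' * HankO_ext v m')]
  exact Finset.sum_congr rfl fun m' _ => by rw [HankO_ext_val]

/-- the rows of the matrix, in terms of the extension by zero -/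
private theorem HankO_rows (n : ℕ) (v : Fin (2 * n + 1) → ℝ) (z : ℕ → ℝ)
    (h : ∀ m : Fin (2 * n + 1), ∑ m' : Fin (2 * n + 1), Ko K0 m m' * v m' = z m) :
    HankO_ext v 0 = z 0 ∧ (∀ m < 2 * n, ∑ m' ∈ Finset.range (2 * n + 1), K0 m m' * HankO_ext v m' =
      z (m + 1)) := by
  constructor
  · have h1 := h ⟨0, by omega⟩
    rw [HankO_row (fun m' => Ko K0 0 m') v] at h1
    unfold Ko at h1
    simp only [if_true, ite_mul, one_mul, zero_mul] at h1
    rw [Finset.sum_ite_eq' (Finset.range (2 * n + 1)) 0, if_pos (Finset.mem_range.mpr (by omega))] at h1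
    exact h1
  · intro m hm
    have h1 := h ⟨m + 1, by omega⟩
    rw [HankO_row (fun m' => Ko K0 (m + 1) m') v] at h1
    rw [← h1]
    refine Finset.sum_congr rfl fun m' _ => ?_
    unfold Ko
    rw [if_neg (Nat.succ_ne_zero m), Nat.add_sub_cancel]

theorem odd_inj (n : ℕ) (v : Fin (2 * n + 1) → ℝ)
    (h : ∀ m : Fin (2 * n + 1), ∑ m' : Fin (2 * n + 1), Ko K0 m m' * v m' = 0) : v = 0 := by
  obtain ⟨h0, h1⟩ := HankO_rows n v (fun _ => 0) h
  have h2 : ∀ b < n, HankO_ext v (2 * b + 1) = 0 :=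
    HankO_L1 n (fun b => HankO_ext v (2 * b + 1)) fun a ha => by
      have h3 := h1 (2 * a) (by omega)
      rw [HankO_rowE, neg_eq_zero] at h3
      exact h3
  have h3 : ∀ a < n + 1, HankO_ext v (2 * a) = 0 :=
    HankO_L2 n (fun a => HankO_ext v (2 * a)) h0 fun b hb => by
      rw [← HankO_rowO]
      exact h1 (2 * b + 1) (by omega)
  funext m
  rw [← HankO_ext_val v m, Pi.zero_apply]
  rcases Nat.even_or_odd' (m : ℕ) with ⟨a, ha | ha⟩
  · rw [ha]
    exact h3 a (by have := m.2; omega)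
  · rw [ha]
    exact h2 a (by have := m.2; omega)

theorem odd_sol (n : ℕ) : ∃ (v : Fin (2 * n + 1) → ℝ) (p : ℝ[X]), p.natDegree ≤ n ∧
    (∀ q : ℝ[X], q.natDegree < n → ip p q = 0) ∧ p.eval 0 = 1 ∧
    (∀ m : Fin (2 * n + 1), ∑ m' : Fin (2 * n + 1), Ko K0 m m' * v m' = if (m : ℕ) = 0 then 1 else 0) ∧
    ∑ m' : Fin (2 * n + 1), v m' = p.eval (-1) := by
  let A : Matrix (Fin (2 * n + 1)) (Fin (2 * n + 1)) ℝ := Matrix.of fun m m' => Ko K0 m m'
  have hA : ∀ v m, A.mulVecLin v m = ∑ m' : Fin (2 * n + 1), Ko K0 m m' * v m' := fun v m => rfl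
  have hinj : Function.Injective A.mulVecLin := by
    rw [injective_iff_map_eq_zero]
    intro v hv
    refine odd_inj n v fun m => ?_
    rw [← hA, hv]
    rfl
  have hsurj : Function.Surjective A.mulVecLin := LinearMap.injective_iff_surjective.mp hinj
  obtain ⟨v, hv⟩ := hsurj fun m => if (m : ℕ) = 0 then 1 else 0
  have h0 : ∀ m : Fin (2 * n + 1), ∑ m' : Fin (2 * n + 1), Ko K0 m m' * v m' =
      if (m : ℕ) = 0 then 1 else 0 := by
    intro m
    rw [← hA, hv]
  obtain ⟨h1, h2⟩ := HankO_rows n v (fun m => if m = 0 then 1 else 0) h0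
  rw [if_pos rfl] at h1
  have h2' : ∀ m < 2 * n, ∑ m' ∈ Finset.range (2 * n + 1), K0 m m' * HankO_ext v m' = 0 := by
    intro m hm
    rw [h2 m hm, if_neg (Nat.succ_ne_zero m)]
  have h3 : ∀ b < n, HankO_ext v (2 * b + 1) = 0 :=
    HankO_L1 n (fun b => HankO_ext v (2 * b + 1)) fun a ha => by
      have h4 := h2' (2 * a) (by omega)
      rw [HankO_rowE, neg_eq_zero] at h4
      exact h4
  refine ⟨v, HankO_P (n + 1) fun a => HankO_ext v (2 * a), HankO_deg n _, ?_, ?_, h0, ?_⟩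
  · refine HankO_orth n _ fun b hb => ?_
    rw [← HankO_rowO]
    exact h2' (2 * b + 1) (by omega)
  · rw [← coeff_zero_eq_eval_zero, HankO_coeff (n + 1) _ (Nat.succ_pos n), mul_zero, h1]
    norm_num
  · have h5 : ∑ m' : Fin (2 * n + 1), v m' = ∑ m' ∈ Finset.range (2 * n + 1), HankO_ext v m' := by
      rw [← Fin.sum_univ_eq_sum_range (fun m' => HankO_ext v m')]
      exact Finset.sum_congr rfl fun m' _ => by rw [HankO_ext_val]
    rw [h5, HankO_pairs, Finset.sum_eq_zero (f := fun a => HankO_ext v (2 * a + 1))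
      (fun a ha => h3 a (Finset.mem_range.mp ha)), add_zero]
    unfold HankO_P
    rw [eval_finsetSum]
    refine Finset.sum_congr rfl fun b _ => ?_
    rw [eval_mul, eval_C, eval_pow, eval_X]
    have h6 : ((-1 : ℝ)) ^ b * (-1) ^ b = 1 := by
      rw [← pow_add, ← two_mul, pow_mul]
      norm_num
    calc HankO_ext v (2 * b) = ((-1 : ℝ) ^ b * (-1) ^ b) * HankO_ext v (2 * b) := by
          rw [h6, one_mul]
      _ = _ := by ring

end Pool.Agent.BEX.A3
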