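import Pool.Agent.BEX.A3.Defs

/-!
# BEX/A3/Mat: limits of solutions of linear systems

PAPER PROOF.  The determinant of `A ε` converges to `det A0 ≠ 0`, so for `ε` near `0` the matrix is invertible,
`y ε = (A ε)⁻¹ b ε`, and the inverse (adjugate over determinant) is continuous.
-/

namespace Pool.Agent.BEX.A3

open Filter Topology

theorem solve_tendsto {L : ℕ} (A : ℝ → Matrix (Fin L) (Fin L) ℝ) (A0 : Matrix (Fin L) (Fin L) ℝ)
    (hA : ∀ i j, Tendsto (fun ε => A ε i j) (𝓝[≠] 0) (𝓝 (A0 i j)))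
    (hinj : ∀ v : Fin L → ℝ, (∀ i, ∑ j, A0 i j * v j = 0) → v = 0)
    (y b : ℝ → Fin L → ℂ) (b0 y0 : Fin L → ℂ)
    (hy0 : ∀ i, ∑ j, (A0 i j : ℂ) * y0 j = b0 i)
    (h : ∀ᶠ ε in 𝓝[≠] 0, ∀ i, ∑ j, (A ε i j : ℂ) * y ε j = b ε i)
    (hb : ∀ i, Tendsto (fun ε => b ε i) (𝓝[≠] 0) (𝓝 (b0 i))) :
    ∀ i, Tendsto (fun ε => y ε i) (𝓝[≠] 0) (𝓝 (y0 i)) := by
  classical
  have hdet0 : A0.det ≠ 0 := by
    intro h0
    obtain ⟨v, hv, hv0⟩ := Matrix.exists_mulVec_eq_zero_iff.mpr h0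
    apply hv
    apply hinj v
    intro i
    have := congrFun hv0 i
    simpa [Matrix.mulVec, dotProduct] using this
  set M : ℝ → Matrix (Fin L) (Fin L) ℂ := fun ε => (A ε).map Complex.ofRealHom with hM
  set M0 : Matrix (Fin L) (Fin L) ℂ := A0.map Complex.ofRealHom with hM0
  have hdetM0 : M0.det ≠ 0 := by
    have h1 : M0.det = Complex.ofRealHom A0.det := by
      rw [hM0, ← RingHom.mapMatrix_apply, ← RingHom.map_det]
    rw [h1]
    simpa using hdet0
  have hMt : Tendsto M (𝓝[≠] 0) (𝓝 M0) := by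
    refine tendsto_pi_nhds.mpr fun i => tendsto_pi_nhds.mpr fun j => ?_
    have h2 := (Complex.continuous_ofReal.tendsto (A0 i j)).comp (hA i j)
    simpa [hM, hM0, Function.comp_def] using h2
  have key : ∀ (B : Matrix (Fin L) (Fin L) ℂ) (z c : Fin L → ℂ), B.mulVec z = c →
      ∀ i, B.det * z i = (B.adjugate.mulVec c) i := by
    intro B z c hBc i
    rw [← hBc, Matrix.mulVec_mulVec, Matrix.adjugate_mul, Matrix.smul_mulVec, Matrix.one_mulVec,
      Pi.smul_apply, smul_eq_mul]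
  have hdetT : Tendsto (fun ε => (M ε).det) (𝓝[≠] 0) (𝓝 M0.det) := by
    have hc : Continuous (fun B : Matrix (Fin L) (Fin L) ℂ => B.det) :=
      Continuous.matrix_det continuous_id
    exact (hc.tendsto M0).comp hMt
  have hadj : Tendsto (fun ε => (M ε).adjugate) (𝓝[≠] 0) (𝓝 M0.adjugate) := by
    have hc : Continuous (fun B : Matrix (Fin L) (Fin L) ℂ => B.adjugate) :=
      Continuous.matrix_adjugate continuous_id
    exact (hc.tendsto M0).comp hMt
  have hadjT : ∀ i, Tendsto (fun ε => (M ε).adjugate.mulVec (b ε) i) (𝓝[≠] 0)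
      (𝓝 (M0.adjugate.mulVec b0 i)) := by
    intro i
    simp only [Matrix.mulVec, dotProduct]
    refine tendsto_finsetSum _ fun j _ => ?_
    exact Tendsto.mul (tendsto_pi_nhds.mp (tendsto_pi_nhds.mp hadj i) j) (hb j)
  have hne : ∀ᶠ ε in 𝓝[≠] (0 : ℝ), (M ε).det ≠ 0 := hdetT.eventually_ne hdetM0
  intro i
  have hy0' : y0 i = (M0.adjugate.mulVec b0) i / M0.det := by
    rw [eq_div_iff hdetM0, mul_comm]
    apply key M0 y0 b0
    funext k
    simpa [hM0, Matrix.mulVec, dotProduct] using hy0 k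
  rw [hy0']
  have hlim : Tendsto (fun ε => ((M ε).adjugate.mulVec (b ε)) i / (M ε).det) (𝓝[≠] 0)
      (𝓝 ((M0.adjugate.mulVec b0) i / M0.det)) :=
    (hadjT i).div hdetT hdetM0
  refine hlim.congr' ?_
  filter_upwards [hne, h] with ε h1 h2
  rw [div_eq_iff h1, mul_comm]
  symm
  apply key (M ε) (y ε) (b ε)
  funext k
  simpa [hM, Matrix.mulVec, dotProduct] using h2 k

end Pool.Agent.BEX.A3
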