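import Pool.Agent.BEX.A3.Defs

/-!
# BEX/A3/Trans: passage to finite differences

PAPER PROOF.  Newton: `G j = ∑_{m ≤ j} C(j,m) (Δ^m G)(0)` (`shift_eq_sum_fwdDiff_iter`, step `1` on `ℕ`), so
`∑_j G j x_j = ∑_{m<L} (Δ^m G)(0) ∑_j C(j,m) x_j`, which is `newton`.  For `trans_kap`: fix `i`, `G j = kap((i-j) ε)`;
multiply the relation `i` by `(-1)^{m-i} C(m,i)` and sum over `i ≤ m` (`m < L`): the right side is `c` times
`∑_i (-1)^{m-i} C(m,i) = δ_{m0}`; on the left `i ↦ kap((i-j) ε)` has `m`-th difference `(Δ_ε^m kap)(-j ε)` at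
`i = 0`, and the `m'`-th difference in `j` at `0` of `j ↦ g(-j ε)` is `(-1)^{m'} (Δ_ε^{m'} g)(-m' ε)`.
`trans_exp`: `G j = e^{jε}`, `Δ^m G (0) = (e^ε - 1)^m`.
-/

namespace Pool.Agent.BEX.A3

open Finset

theorem yc_zero {L : ℕ} (x : Fin L → ℂ) (ε : ℝ) : yc x ε 0 = ∑ j, x j := by
  simp [yc]

private theorem Trans_neg (ε : ℝ) (m : ℕ) : ∀ (g : ℝ → ℂ) (x : ℝ) (j : ℕ),
    (fwdDiff 1)^[m] (fun j : ℕ => g (x - (j : ℝ) * ε)) j =
      (-1) ^ m * (fwdDiff ε)^[m] g (x - ((j : ℝ) + m) * ε) := by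
  induction m with
  | zero => intro g x j; simp
  | succ m ih =>
    intro g x j
    rw [Function.iterate_succ_apply]
    have h1 : fwdDiff 1 (fun j : ℕ => g (x - (j : ℝ) * ε)) =
        fun j : ℕ => ((-1 : ℂ) • fwdDiff ε g) ((x - ε) - (j : ℝ) * ε) := by
      funext k
      have e1 : x - ((k + 1 : ℕ) : ℝ) * ε = (x - ε) - (k : ℝ) * ε := by push_cast; ring
      have e2 : (x - ε) - (k : ℝ) * ε + ε = x - (k : ℝ) * ε := by ring
      simp only [fwdDiff, Pi.smul_apply, smul_eq_mul, e1, e2]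
      ring
    rw [h1, ih, fwdDiff_iter_const_smul, Function.iterate_succ_apply, Pi.smul_apply, smul_eq_mul]
    have e3 : (x - ε) - ((j : ℝ) + m) * ε = x - ((j : ℝ) + ((m + 1 : ℕ) : ℝ)) * ε := by
      push_cast; ring
    rw [e3]
    ring

private theorem Trans_pos (ε : ℝ) (m : ℕ) : ∀ (g : ℝ → ℂ) (x : ℝ) (j : ℕ),
    (fwdDiff 1)^[m] (fun j : ℕ => g (x + (j : ℝ) * ε)) j =
      (fwdDiff ε)^[m] g (x + (j : ℝ) * ε) := by
  induction m with
  | zero => intro g x j; simp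
  | succ m ih =>
    intro g x j
    rw [Function.iterate_succ_apply]
    have h1 : fwdDiff 1 (fun j : ℕ => g (x + (j : ℝ) * ε)) =
        fun j : ℕ => (fwdDiff ε g) (x + (j : ℝ) * ε) := by
      funext k
      have e1 : x + ((k + 1 : ℕ) : ℝ) * ε = x + (k : ℝ) * ε + ε := by push_cast; ring
      simp only [fwdDiff, e1]
    rw [h1, ih, Function.iterate_succ_apply]

private theorem Trans_cast (ε : ℝ) (m : ℕ) (f : ℝ → ℝ) :
    (fwdDiff ε)^[m] (fun t => (f t : ℂ)) = fun t => (((fwdDiff ε)^[m] f t : ℝ) : ℂ) := by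
  induction m with
  | zero => rfl
  | succ m ih =>
    rw [Function.iterate_succ_apply', ih]
    funext t
    rw [Function.iterate_succ_apply']
    simp only [fwdDiff]
    push_cast
    ring

/-- Newton's formula for the functional -/
theorem newton {L : ℕ} (x : Fin L → ℂ) (ε : ℝ) (hε : ε ≠ 0) (G : ℕ → ℂ) :
    ∑ j : Fin L, G j * x j =
      ∑ m : Fin L, (fwdDiff 1)^[(m : ℕ)] G 0 / (ε : ℂ) ^ (m : ℕ) * yc x ε m := by
  have hε' : (ε : ℂ) ≠ 0 := by exact_mod_cast hε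
  have h1 : ∀ j : Fin L, G j =
      ∑ m : Fin L, ((((j : ℕ).choose m : ℕ) : ℂ)) * (fwdDiff 1)^[(m : ℕ)] G 0 := by
    intro j
    have h2 := shift_eq_sum_fwdDiff_iter (1 : ℕ) G (j : ℕ) 0
    rw [zero_add, smul_eq_mul, mul_one] at h2
    rw [h2, Fin.sum_univ_eq_sum_range
      (fun m => ((((j : ℕ).choose m : ℕ) : ℂ)) * (fwdDiff 1)^[m] G 0) L]
    have h3 : range ((j : ℕ) + 1) ⊆ range L := by
      intro k hk
      rw [mem_range] at hk ⊢
      have := j.2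
      omega
    rw [← Finset.sum_subset h3]
    · refine Finset.sum_congr rfl fun k _ => ?_
      rw [nsmul_eq_mul]
    · intro k _ hk
      rw [mem_range, not_lt] at hk
      rw [Nat.choose_eq_zero_of_lt (by omega), Nat.cast_zero, zero_mul]
  have h4 : ∀ m : Fin L, (fwdDiff 1)^[(m : ℕ)] G 0 / (ε : ℂ) ^ (m : ℕ) * yc x ε m =
      ∑ j : Fin L, ((((j : ℕ).choose m : ℕ) : ℂ)) * (fwdDiff 1)^[(m : ℕ)] G 0 * x j := by
    intro m
    have h5 : (ε : ℂ) ^ (m : ℕ) ≠ 0 := pow_ne_zero _ hε'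
    rw [yc, div_mul_eq_mul_div, mul_left_comm, mul_div_assoc, mul_comm ((ε : ℂ) ^ (m : ℕ)),
      div_mul_cancel₀ _ h5, Finset.mul_sum]
    refine Finset.sum_congr rfl fun j _ => ?_
    ring
  simp_rw [h4]
  rw [Finset.sum_comm]
  refine Finset.sum_congr rfl fun j _ => ?_
  rw [← Finset.sum_mul, ← h1 j]

/-- the relations in terms of differences -/
theorem trans_kap {L : ℕ} (x : Fin L → ℂ) (ε : ℝ) (hε : ε ≠ 0) (c : ℂ)
    (h : ∀ i : Fin L, ∑ j : Fin L, (kap ((((i : ℕ) : ℝ) - ((j : ℕ) : ℝ)) * ε) : ℂ) * x j = c)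
    (m : ℕ) (hm : m < L) :
    ∑ m' : Fin L, (Km ε m m' : ℂ) * yc x ε m' = if m = 0 then c else 0 := by
  have hε' : (ε : ℂ) ≠ 0 := by exact_mod_cast hε
  set g : ℝ → ℂ := fun t => (kap t : ℂ) with hg
  -- the relations after Newton in `j`
  have h1 : ∀ i : ℕ, i < L → ∑ m' : Fin L, ((-1) ^ (m' : ℕ) *
      (fwdDiff ε)^[(m' : ℕ)] g (-((m' : ℕ) : ℝ) * ε + (i : ℝ) * ε)) / (ε : ℂ) ^ (m' : ℕ) *
        yc x ε m' = c := by
    intro i hi
    have h2 := newton x ε hε (fun j : ℕ => g ((i : ℝ) * ε - (j : ℝ) * ε))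
    have h3 : ∑ j : Fin L, (fun j : ℕ => g ((i : ℝ) * ε - (j : ℝ) * ε)) j * x j = c := by
      rw [← h ⟨i, hi⟩]
      refine Finset.sum_congr rfl fun j _ => ?_
      simp only [hg]
      rw [sub_mul]
    rw [← h3, h2]
    refine Finset.sum_congr rfl fun m' _ => ?_
    rw [Trans_neg]
    have e1 : (i : ℝ) * ε - (((0 : ℕ) : ℝ) + ((m' : ℕ) : ℝ)) * ε =
        -((m' : ℕ) : ℝ) * ε + (i : ℝ) * ε := by
      push_cast
      ring
    rw [e1]
  -- differences in `i`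
  have h3 : ∑ k ∈ range (m + 1), (((-1 : ℤ) ^ (m - k) * m.choose k : ℤ) : ℂ) * c =
      if m = 0 then c else 0 := by
    have h4 := fwdDiff_iter_eq_sum_shift (1 : ℕ) (fun _ : ℕ => c) m 0
    simp only [zsmul_eq_mul] at h4
    rw [← h4]
    rcases Nat.eq_zero_or_pos m with h0 | h0
    · subst h0; simp
    · rw [if_neg (by omega)]
      obtain ⟨n, rfl⟩ : ∃ n, m = n + 1 := ⟨m - 1, by omega⟩
      rw [Function.iterate_succ_apply, fwdDiff_const]
      have h5 : ∀ n : ℕ, (fwdDiff (1 : ℕ))^[n] (fun _ : ℕ => (0 : ℂ)) = fun _ => 0 := by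
        intro n
        induction n with
        | zero => rfl
        | succ n ih => rw [Function.iterate_succ_apply, fwdDiff_const, ih]
      rw [h5]
  have h6 : ∑ m' : Fin L, (∑ k ∈ range (m + 1), (((-1 : ℤ) ^ (m - k) * m.choose k : ℤ) : ℂ) *
      ((-1) ^ (m' : ℕ) * (fwdDiff ε)^[(m' : ℕ)] g (-((m' : ℕ) : ℝ) * ε + (k : ℝ) * ε))) /
        (ε : ℂ) ^ (m' : ℕ) * yc x ε m' = if m = 0 then c else 0 := by
    rw [← h3]
    have h7 : ∀ k ∈ range (m + 1), (((-1 : ℤ) ^ (m - k) * m.choose k : ℤ) : ℂ) * c =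
        ∑ m' : Fin L, (((-1 : ℤ) ^ (m - k) * m.choose k : ℤ) : ℂ) * (((-1) ^ (m' : ℕ) *
      (fwdDiff ε)^[(m' : ℕ)] g (-((m' : ℕ) : ℝ) * ε + (k : ℝ) * ε)) / (ε : ℂ) ^ (m' : ℕ) *
        yc x ε m') := by
      intro k hk
      rw [mem_range] at hk
      rw [← Finset.mul_sum, h1 k (by omega)]
    rw [Finset.sum_congr rfl h7, Finset.sum_comm]
    refine Finset.sum_congr rfl fun m' _ => ?_
    rw [Finset.sum_div, Finset.sum_mul]
    refine Finset.sum_congr rfl fun k _ => ?_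
    ring
  have h8 : ∀ m' : ℕ, ∑ k ∈ range (m + 1), (((-1 : ℤ) ^ (m - k) * m.choose k : ℤ) : ℂ) *
      ((-1) ^ m' * (fwdDiff ε)^[m'] g (-(m' : ℝ) * ε + (k : ℝ) * ε)) =
      (-1) ^ m' * (((fwdDiff ε)^[m + m'] kap (-(m' : ℝ) * ε) : ℝ) : ℂ) := by
    intro m'
    have h9 := fwdDiff_iter_eq_sum_shift (1 : ℕ)
      (fun k : ℕ => (fwdDiff ε)^[m'] g (-(m' : ℝ) * ε + (k : ℝ) * ε)) m 0
    rw [Trans_pos] at h9
    simp only [zsmul_eq_mul, zero_add, smul_eq_mul, mul_one, Nat.cast_zero, zero_mul,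
      add_zero] at h9
    rw [← Function.iterate_add_apply] at h9
    have h10 : (((fwdDiff ε)^[m + m'] kap (-(m' : ℝ) * ε) : ℝ) : ℂ) =
        (fwdDiff ε)^[m + m'] g (-(m' : ℝ) * ε) := by
      rw [hg, Trans_cast]
    rw [h10, h9, Finset.mul_sum]
    refine Finset.sum_congr rfl fun k _ => ?_
    ring
  -- divide by `ε ^ m`
  have h10 : ∑ m' : Fin L, (Km ε m m' : ℂ) * yc x ε m' =
      (if m = 0 then c else 0) / (ε : ℂ) ^ m := by
    rw [← h6, Finset.sum_div]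
    refine Finset.sum_congr rfl fun m' _ => ?_
    rw [h8, Km]
    push_cast
    rw [pow_add]
    field_simp
  rw [h10]
  split_ifs with h0
  · subst h0; simp
  · simp

/-- the value on the exponential -/
theorem trans_exp {L : ℕ} (x : Fin L → ℂ) (ε : ℝ) (hε : ε ≠ 0) :
    ∑ j : Fin L, (Real.exp (((j : ℕ) : ℝ) * ε) : ℂ) * x j =
      ∑ m : Fin L, (((Real.exp ε - 1) / ε : ℝ) : ℂ) ^ (m : ℕ) * yc x ε m := by
  have h1 := newton x ε hε (fun j : ℕ => (Real.exp ((j : ℝ) * ε) : ℂ))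
  rw [h1]
  refine Finset.sum_congr rfl fun m _ => ?_
  congr 1
  have h2 : ∀ (m : ℕ) (j : ℕ), (fwdDiff 1)^[m] (fun j : ℕ => (Real.exp ((j : ℝ) * ε) : ℂ)) j =
      ((Real.exp ε : ℂ) - 1) ^ m * (Real.exp ((j : ℝ) * ε) : ℂ) := by
    intro m
    induction m with
    | zero => intro j; simp
    | succ m ih =>
      intro j
      rw [Function.iterate_succ_apply', fwdDiff, ih, ih]
      have e1 : ((j + 1 : ℕ) : ℝ) * ε = ε + (j : ℝ) * ε := by push_cast; ring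
      rw [e1, Real.exp_add]
      push_cast
      ring
  rw [h2]
  push_cast
  rw [div_pow]
  simp

end Pool.Agent.BEX.A3
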