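import Pool.Agent.BEX.A3.Fd
import Pool.Agent.BEX.A3.Trans
import Pool.Agent.BEX.A3.Mat
import Pool.Agent.BEX.A3.HankO

/-!
# BEX/A3/Main: rapidities to zero

Interface theorems: `even_limit` (`L = 2 n`), `odd_limit` (`L = 2 n + 1`).
-/

namespace Pool.Agent.BEX.A3

open Polynomial Filter Topology

/-- `((e^ε - 1)/ε)^m → 1` -/
theorem expq_tendsto (m : ℕ) :
    Tendsto (fun ε : ℝ => (((Real.exp ε - 1) / ε : ℝ) : ℂ) ^ m) (𝓝[≠] 0) (𝓝 1) := by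
  have h : Tendsto (fun ε : ℝ => (Real.exp ε - 1) / ε) (𝓝[≠] 0) (𝓝 1) := by
    have h1 := Real.hasDerivAt_exp 0
    rw [Real.exp_zero, hasDerivAt_iff_tendsto_slope] at h1
    refine h1.congr fun ε => ?_
    simp [slope_def_field]
  have h2 : Tendsto (fun ε : ℝ => (((Real.exp ε - 1) / ε : ℝ) : ℂ)) (𝓝[≠] 0) (𝓝 ((1 : ℝ) : ℂ)) :=
    (Complex.continuous_ofReal.tendsto 1).comp h
  have h3 := h2.pow m
  simpa using h3

/-- common end of the two proofs -/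
theorem limit_aux {L : ℕ} (x : ℝ → Fin L → ℂ) (P Q : ℝ → ℂ) (v : Fin L → ℝ)
    (h2 : ∀ᶠ ε in 𝓝[≠] (0 : ℝ), ∑ j : Fin L, (Real.exp (((j : ℕ) : ℝ) * ε) : ℂ) * x ε j = Q ε)
    (hy : ∀ m : Fin L, Tendsto (fun ε => yc (x ε) ε m / P ε) (𝓝[≠] 0) (𝓝 ((v m : ℝ) : ℂ))) :
    Tendsto (fun ε => Q ε / P ε) (𝓝[≠] 0) (𝓝 ((∑ m : Fin L, v m : ℝ) : ℂ)) := by
  have h3 : Tendsto (fun ε : ℝ => ∑ m : Fin L, (((Real.exp ε - 1) / ε : ℝ) : ℂ) ^ (m : ℕ) *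
      (yc (x ε) ε m / P ε)) (𝓝[≠] 0) (𝓝 (∑ m : Fin L, 1 * ((v m : ℝ) : ℂ))) :=
    tendsto_finsetSum _ fun m _ => (expq_tendsto (m : ℕ)).mul (hy m)
  have h4 : (∑ m : Fin L, 1 * ((v m : ℝ) : ℂ)) = ((∑ m : Fin L, v m : ℝ) : ℂ) := by
    simp
  rw [h4] at h3
  refine h3.congr' ?_
  filter_upwards [h2, self_mem_nhdsWithin] with ε h hε
  rw [← h, trans_exp (x ε) ε hε, Finset.sum_div]
  exact Finset.sum_congr rfl fun m _ => by rw [mul_div_assoc]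

/-- **Even circumference.** -/
theorem even_limit (n : ℕ) (hn : 1 ≤ n) (x : ℝ → Fin (2 * n) → ℂ) (P Q : ℝ → ℂ)
    (hP : ∀ᶠ ε in 𝓝[≠] (0 : ℝ), P ε ≠ 0)
    (h1 : ∀ᶠ ε in 𝓝[≠] (0 : ℝ), ∀ i : Fin (2 * n),
      ∑ j : Fin (2 * n), (kap ((((i : ℕ) : ℝ) - ((j : ℕ) : ℝ)) * ε) : ℂ) * x ε j = -P ε)
    (h2 : ∀ᶠ ε in 𝓝[≠] (0 : ℝ), ∑ j : Fin (2 * n), (Real.exp (((j : ℕ) : ℝ) * ε) : ℂ) * x ε j = Q ε) :
    ∃ s : ℝ[X], s.natDegree < n ∧ (∀ q : ℝ[X], q.natDegree < n → ip s q = q.eval 0) ∧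
      Tendsto (fun ε => Q ε / P ε) (𝓝[≠] 0) (𝓝 ((s.eval (-1) : ℝ) : ℂ)) := by
  obtain ⟨v, s, hs, hs1, hv, hvs⟩ := even_sol n hn
  refine ⟨s, hs, hs1, ?_⟩
  rw [← hvs]
  refine limit_aux x P Q v h2 ?_
  refine solve_tendsto (fun ε => fun i j : Fin (2 * n) => Km ε i j) (fun i j : Fin (2 * n) => K0 i j)
    (fun i j => Km_tendsto i j) (even_inj n) (fun ε m => yc (x ε) ε m / P ε)
    (fun _ i => if (i : ℕ) = 0 then -1 else 0) (fun i => if (i : ℕ) = 0 then -1 else 0)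
    (fun m => ((v m : ℝ) : ℂ)) (fun i => ?_) ?_ (fun i => tendsto_const_nhds)
  · have h := congrArg (fun t : ℝ => (t : ℂ)) (hv i)

    push_cast at h
    rw [h]
    split_ifs <;> simp
  · filter_upwards [hP, h1, self_mem_nhdsWithin] with ε hPε h hε i
    have h5 := trans_kap (x ε) ε hε (-P ε) h (i : ℕ) i.2
    have h6 : ∑ j : Fin (2 * n), (Km ε i j : ℂ) * (yc (x ε) ε j / P ε) =
        (∑ j : Fin (2 * n), (Km ε i j : ℂ) * yc (x ε) ε j) / P ε := by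
      rw [Finset.sum_div]
      exact Finset.sum_congr rfl fun j _ => by rw [mul_div_assoc]
    rw [h6, h5]
    split_ifs with h0
    · rw [neg_div, div_self hPε]
    · rw [zero_div]

/-- **Odd circumference.** -/
theorem odd_limit (n : ℕ) (x : ℝ → Fin (2 * n + 1) → ℂ) (P Q : ℝ → ℂ)
    (hP : ∀ᶠ ε in 𝓝[≠] (0 : ℝ), P ε ≠ 0)
    (h0 : ∀ᶠ ε in 𝓝[≠] (0 : ℝ), ∑ j : Fin (2 * n + 1), x ε j = P ε)
    (h1 : ∀ᶠ ε in 𝓝[≠] (0 : ℝ), ∀ i : Fin (2 * n + 1),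
      ∑ j : Fin (2 * n + 1), (kap ((((i : ℕ) : ℝ) - ((j : ℕ) : ℝ)) * ε) : ℂ) * x ε j = 0)
    (h2 : ∀ᶠ ε in 𝓝[≠] (0 : ℝ),
      ∑ j : Fin (2 * n + 1), (Real.exp (((j : ℕ) : ℝ) * ε) : ℂ) * x ε j = Q ε) :
    ∃ p : ℝ[X], p.natDegree ≤ n ∧ (∀ q : ℝ[X], q.natDegree < n → ip p q = 0) ∧ p.eval 0 = 1 ∧
      Tendsto (fun ε => Q ε / P ε) (𝓝[≠] 0) (𝓝 ((p.eval (-1) : ℝ) : ℂ)) := by
  obtain ⟨v, p, hp, hp1, hp0, hv, hvs⟩ := odd_sol n
  refine ⟨p, hp, hp1, hp0, ?_⟩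
  rw [← hvs]
  refine limit_aux x P Q v h2 ?_
  refine solve_tendsto (fun ε => fun i j : Fin (2 * n + 1) => Ko (Km ε) i j)
    (fun i j : Fin (2 * n + 1) => Ko K0 i j)
    (fun i j => ?_) (odd_inj n) (fun ε m => yc (x ε) ε m / P ε)
    (fun _ i => if (i : ℕ) = 0 then 1 else 0) (fun i => if (i : ℕ) = 0 then 1 else 0)
    (fun m => ((v m : ℝ) : ℂ)) (fun i => ?_) ?_ (fun i => tendsto_const_nhds)
  · unfold Ko
    split_ifs
    · exact tendsto_const_nhds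
    · exact tendsto_const_nhds
    · exact Km_tendsto _ _
  · have h := congrArg (fun t : ℝ => (t : ℂ)) (hv i)

    push_cast at h
    rw [h]
    split_ifs <;> simp
  · filter_upwards [hP, h0, h1, self_mem_nhdsWithin] with ε hPε h0ε h hε i
    have h6 : ∑ j : Fin (2 * n + 1), (Ko (Km ε) i j : ℂ) * (yc (x ε) ε j / P ε) =
        (∑ j : Fin (2 * n + 1), (Ko (Km ε) i j : ℂ) * yc (x ε) ε j) / P ε := by
      rw [Finset.sum_div]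
      exact Finset.sum_congr rfl fun j _ => by rw [mul_div_assoc]
    rw [h6]
    by_cases hi : (i : ℕ) = 0
    · have h7 : ∑ j : Fin (2 * n + 1), (Ko (Km ε) i j : ℂ) * yc (x ε) ε j = P ε := by
        rw [← h0ε, ← yc_zero (x ε) ε]
        rw [Finset.sum_eq_single (⟨0, by omega⟩ : Fin (2 * n + 1))]
        · simp [Ko, hi]
        · intro j _ hj
          have : (j : ℕ) ≠ 0 := fun h => hj (Fin.ext h)
          simp [Ko, hi, this]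
        · simp
      rw [h7, if_pos hi, div_self hPε]
    · have h7 : ∑ j : Fin (2 * n + 1), (Ko (Km ε) i j : ℂ) * yc (x ε) ε j = 0 := by
        have h8 := trans_kap (x ε) ε hε 0 h ((i : ℕ) - 1) (by omega)
        rw [ite_self] at h8
        rw [← h8]
        refine Finset.sum_congr rfl fun j _ => ?_
        simp only [Ko, if_neg hi]
      rw [h7, if_neg hi, zero_div]

end Pool.Agent.BEX.A3
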