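import Pool.Agent.BEX.A3.Defs

/-!
# BEX/A3/PF: partial fractions (algebra in the variable `w = e^{2 i v}`)

`s = √2`; the nodes are the zeros `wj q`, `wj / q` of `w² + √2 w wj + wj²`, `q = e^{3πi/4}`, `q + 1/q = -√2`.
PAPER PROOF.  `N(w) = K φ(w) ∏ (w - w_k)` has degree `≤ 2L`, `D(w) = ∏ (w² + √2 w w_k + w_k²)` is monic of degree `2L` with
the `2L` distinct zeros `w_j q^{±1}`.  For each `j` choose `x_j` so that
`B(w) = ∑_j x_j 2i (w² - w_j²) ∏_{k≠j} (w² + √2 w w_k + w_k²)` agrees with `N` at `w_j q` (`B(w_j q)` has only the term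
`j`, and its factors are non zero).  The hypothesis `hres` says exactly that then `B(w_j/q) = N(w_j/q)` too.  So `N - B`
has degree `≤ 2L` and the zeros of `D`: `N = c D + B`.  Compare at `w = w_i`: `0 = c D(w_i) + B(w_i)`, divide by `D(w_i)`:
`c = -2i ∑_j x_j (w_i² - w_j²)/(w_i² + √2 w_i w_j + w_j²)`.  Leading coefficients (degree `2L`): `K φ_L = c + 2i ∑ x_j`.
Constant coefficients, divided by `∏ w_k²`; linear coefficients.
-/

namespace Pool.Agent.BEX.A3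

open Finset Polynomial

/-- `q = e^{3πi/4}` -/
noncomputable def qq : ℂ := Complex.exp (3 * Real.pi / 4 * Complex.I)

/-- the quadratic factor -/
noncomputable def Dq (w a : ℂ) : ℂ := w ^ 2 + (Real.sqrt 2 : ℂ) * w * a + a ^ 2

private theorem PF_sq2 : ((Real.sqrt 2 : ℝ) : ℂ) ^ 2 = 2 := by
  rw [← Complex.ofReal_pow, Real.sq_sqrt (by norm_num)]
  norm_num

private theorem PF_qq : qq = -((Real.sqrt 2 : ℝ) : ℂ) / 2 + ((Real.sqrt 2 : ℝ) : ℂ) / 2 * Complex.I := by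
  have h : (3 * Real.pi / 4 * Complex.I : ℂ) = ((3 * Real.pi / 4 : ℝ) : ℂ) * Complex.I := by push_cast; ring
  have hc : Real.cos (3 * Real.pi / 4) = -(Real.sqrt 2 / 2) := by
    rw [show 3 * Real.pi / 4 = Real.pi - Real.pi / 4 by ring, Real.cos_pi_sub, Real.cos_pi_div_four]
  have hs : Real.sin (3 * Real.pi / 4) = Real.sqrt 2 / 2 := by
    rw [show 3 * Real.pi / 4 = Real.pi - Real.pi / 4 by ring, Real.sin_pi_sub, Real.sin_pi_div_four]
  rw [qq, h, Complex.exp_mul_I, ← Complex.ofReal_cos, ← Complex.ofReal_sin, hc, hs]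
  push_cast
  ring

private theorem PF_qq_sq : qq ^ 2 = -Complex.I := by
  rw [PF_qq]
  have h2 := PF_sq2
  have hI := Complex.I_sq
  have : (-((Real.sqrt 2 : ℝ) : ℂ) / 2 + ((Real.sqrt 2 : ℝ) : ℂ) / 2 * Complex.I) ^ 2 =
      ((Real.sqrt 2 : ℝ) : ℂ) ^ 2 * (1 - 2 * Complex.I + Complex.I ^ 2) / 4 := by ring
  rw [this, h2, hI]
  ring

private theorem PF_qq_ne : qq ≠ 0 := Complex.exp_ne_zero _

private theorem PF_qq_inv : qq + qq⁻¹ = -((Real.sqrt 2 : ℝ) : ℂ) := by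
  have h0 := PF_qq_ne
  have h1 : qq ^ 2 + 1 = -((Real.sqrt 2 : ℝ) : ℂ) * qq := by
    rw [PF_qq_sq, PF_qq]
    have h2 := PF_sq2
    have : -((Real.sqrt 2 : ℝ) : ℂ) * (-((Real.sqrt 2 : ℝ) : ℂ) / 2 + ((Real.sqrt 2 : ℝ) : ℂ) / 2 * Complex.I) =
      ((Real.sqrt 2 : ℝ) : ℂ) ^ 2 * (1 - Complex.I) / 2 := by ring
    rw [this, h2]
    ring
  have h3 : (qq + qq⁻¹) * qq = -((Real.sqrt 2 : ℝ) : ℂ) * qq := by
    rw [add_mul, inv_mul_cancel₀ h0, ← h1]
    ring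
  exact mul_right_cancel₀ h0 h3

private theorem PF_fac (z a : ℂ) : Dq z a = (z - a * qq) * (z - a / qq) := by
  have h0 := PF_qq_ne
  have h1 := PF_qq_inv
  have h2 : (z - a * qq) * (z - a / qq) = z ^ 2 - z * a * (qq + qq⁻¹) + a ^ 2 * (qq * qq⁻¹) := by
    rw [div_eq_mul_inv]
    ring
  rw [h2, h1, mul_inv_cancel₀ h0, Dq]
  ring

private theorem PF_qq_ne_real (a b : ℝ) (ha : 0 < a) : (a : ℂ) * qq ≠ (b : ℂ) / qq := by
  intro h
  have h0 := PF_qq_ne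
  rw [eq_div_iff h0] at h
  have h1 : (a : ℂ) * qq ^ 2 = b := by rw [← h]; ring
  rw [PF_qq_sq] at h1
  have h2 := congrArg Complex.im h1
  simp at h2
  exact ha.ne' h2

private theorem PF_D_q (a b : ℝ) (ha : 0 < a) (hab : a ≠ b) : Dq ((a : ℂ) * qq) b ≠ 0 := by
  rw [PF_fac]
  have hab' : (a : ℂ) ≠ b := by exact_mod_cast hab
  refine mul_ne_zero ?_ (sub_ne_zero.2 (PF_qq_ne_real a b ha))
  rw [← sub_mul]
  exact mul_ne_zero (sub_ne_zero.2 hab') PF_qq_ne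

private theorem PF_D_qi (a b : ℝ) (hb : 0 < b) (hab : a ≠ b) : Dq ((a : ℂ) / qq) b ≠ 0 := by
  rw [PF_fac]
  have hab' : (a : ℂ) ≠ b := by exact_mod_cast hab
  refine mul_ne_zero (sub_ne_zero.2 (PF_qq_ne_real b a hb).symm) ?_
  rw [← sub_div]
  exact div_ne_zero (sub_ne_zero.2 hab') PF_qq_ne

private theorem PF_D_real (a b : ℝ) (ha : 0 < a) (hb : 0 < b) : Dq (a : ℂ) b ≠ 0 := by
  have h : Dq (a : ℂ) b = ((a ^ 2 + Real.sqrt 2 * a * b + b ^ 2 : ℝ) : ℂ) := by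
    rw [Dq]
    push_cast
    ring
  rw [h]
  have : 0 < a ^ 2 + Real.sqrt 2 * a * b + b ^ 2 := by positivity
  exact_mod_cast this.ne'

private theorem PF_sq_q (a : ℝ) (ha : 0 < a) : ((a : ℂ) * qq) ^ 2 - (a : ℂ) ^ 2 ≠ 0 := by
  rw [mul_pow, PF_qq_sq]
  have h1 : (a : ℂ) ^ 2 * -Complex.I - (a : ℂ) ^ 2 = (a : ℂ) ^ 2 * (-Complex.I - 1) := by ring
  rw [h1]
  refine mul_ne_zero (pow_ne_zero 2 (by exact_mod_cast ha.ne')) ?_
  intro h
  have := congrArg Complex.im h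
  simp at this

private theorem PF_sq_qi (a : ℝ) (ha : 0 < a) : ((a : ℂ) / qq) ^ 2 - (a : ℂ) ^ 2 ≠ 0 := by
  rw [div_pow, PF_qq_sq]
  have h1 : (a : ℂ) ^ 2 / -Complex.I - (a : ℂ) ^ 2 = (a : ℂ) ^ 2 * (Complex.I - 1) := by
    rw [div_neg, Complex.div_I]
    ring
  rw [h1]
  refine mul_ne_zero (pow_ne_zero 2 (by exact_mod_cast ha.ne')) ?_
  intro h
  have := congrArg Complex.im h
  simp at this

/-- the quadratic factor as a polynomial -/
private noncomputable def Pq (a : ℂ) : ℂ[X] := X ^ 2 + C ((Real.sqrt 2 : ℂ) * a) * X + C (a ^ 2)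

private theorem Pq_eval (z a : ℂ) : (Pq a).eval z = Dq z a := by
  simp only [Pq, Dq, eval_add, eval_pow, eval_X, eval_mul, eval_C]
  ring

private theorem Pq_deg (a : ℂ) : (Pq a).natDegree ≤ 2 := by
  unfold Pq
  compute_degree

private theorem Pq_c0 (a : ℂ) : (Pq a).coeff 0 = a ^ 2 := by
  rw [coeff_zero_eq_eval_zero, Pq_eval, Dq]
  ring

private theorem Pq_c1 (a : ℂ) : (Pq a).coeff 1 = (Real.sqrt 2 : ℂ) * a := by
  unfold Pq
  rw [coeff_add, coeff_add, coeff_X_pow, coeff_C_mul, coeff_X, coeff_C]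
  simp

private theorem Pq_c2 (a : ℂ) : (Pq a).coeff 2 = 1 := by
  unfold Pq
  rw [coeff_add, coeff_add, coeff_X_pow, coeff_C_mul, coeff_X, coeff_C]
  simp

private theorem PF_prod_c0 {ι : Type*} (s : Finset ι) (f : ι → ℂ[X]) :
    (∏ k ∈ s, f k).coeff 0 = ∏ k ∈ s, (f k).coeff 0 := by
  classical
  induction s using Finset.induction_on with
  | empty => simp
  | insert a s ha ih => rw [prod_insert ha, prod_insert ha, mul_coeff_zero, ih]

private theorem PF_prod_c1 {ι : Type*} (s : Finset ι) (f : ι → ℂ[X]) (h : ∀ k ∈ s, (f k).coeff 0 ≠ 0) :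
    (∏ k ∈ s, f k).coeff 1 = (∏ k ∈ s, (f k).coeff 0) * ∑ k ∈ s, (f k).coeff 1 / (f k).coeff 0 := by
  classical
  induction s using Finset.induction_on with
  | empty => simp [coeff_one]
  | insert a s ha ih =>
    have h1 : (f a).coeff 0 ≠ 0 := h a (mem_insert_self _ _)
    rw [prod_insert ha, prod_insert ha, sum_insert ha, mul_coeff_one, ih (fun k hk => h k (mem_insert_of_mem hk)),
      PF_prod_c0]
    field_simp
    ring

private theorem PF_q0 (a : ℂ) : ((X : ℂ[X]) ^ 2 - C (a ^ 2)).coeff 0 = -a ^ 2 := by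
  rw [coeff_sub, coeff_X_pow, coeff_C]
  simp

private theorem PF_q1 (a : ℂ) : ((X : ℂ[X]) ^ 2 - C (a ^ 2)).coeff 1 = 0 := by
  rw [coeff_sub, coeff_X_pow, coeff_C]
  simp

/-- the polynomial `B` -/
private noncomputable def PB {L : ℕ} (w : Fin L → ℝ) (x : Fin L → ℂ) : ℂ[X] :=
  ∑ j : Fin L, C (2 * Complex.I * x j) * ((X ^ 2 - C ((w j : ℂ) ^ 2)) * ∏ k ∈ univ.erase j, Pq (w k))

private noncomputable def PD {L : ℕ} (w : Fin L → ℝ) : ℂ[X] := ∏ k : Fin L, Pq (w k)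

private noncomputable def PN {L : ℕ} (w : Fin L → ℝ) (φ : ℂ[X]) : ℂ[X] :=
  φ * ∏ k : Fin L, (X - C (w k : ℂ))

private theorem PF_root {L : ℕ} (w : Fin L → ℝ) (φ : ℂ[X]) (x : Fin L → ℂ) (j : Fin L) (z : ℂ)
    (hz : Dq z (w j) = 0) (hz1 : ∀ k, k ≠ j → Dq z (w k) ≠ 0) (hz2 : z ^ 2 - (w j : ℂ) ^ 2 ≠ 0)
    (hx : 2 * Complex.I * x j = φ.eval z * (z - w j) / (z ^ 2 - (w j : ℂ) ^ 2) *
      ∏ k ∈ univ.erase j, ((z - w k) / Dq z (w k))) :
    (PN w φ).eval z = (PB w x).eval z ∧ (PD w).eval z = 0 := by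
  constructor
  · have h1 : (PB w x).eval z = 2 * Complex.I * x j * ((z ^ 2 - (w j : ℂ) ^ 2) * ∏ k ∈ univ.erase j, Dq z (w k)) := by
      rw [PB, eval_finsetSum, sum_eq_single j]
      · simp only [eval_mul, eval_C, eval_sub, eval_pow, eval_X, eval_prod, Pq_eval]
      · intro i _ hij
        simp only [eval_mul, eval_C, eval_sub, eval_pow, eval_X, eval_prod, Pq_eval]
        have : ∏ k ∈ univ.erase i, Dq z (w k) = 0 :=
          prod_eq_zero (mem_erase.2 ⟨hij.symm, mem_univ _⟩) hz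
        rw [this]
        ring
      · intro h
        exact absurd (mem_univ j) h
    rw [h1, hx, PN, eval_mul, eval_prod, ← mul_prod_erase univ _ (mem_univ j), prod_div_distrib]
    simp only [eval_sub, eval_X, eval_C]
    have h2 : ∏ k ∈ univ.erase j, Dq z (w k) ≠ 0 := prod_ne_zero_iff.2 fun k hk => hz1 k (mem_erase.1 hk).1
    field_simp
  · rw [PD, eval_prod]
    exact prod_eq_zero (mem_univ j) (by rw [Pq_eval]; exact hz)

private theorem PD_deg {L : ℕ} (w : Fin L → ℝ) : (PD w).natDegree ≤ 2 * L ∧ (PD w).coeff (2 * L) = 1 := by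
  constructor
  · refine (natDegree_prod_le _ _).trans ?_
    refine (sum_le_sum fun k _ => Pq_deg (w k)).trans ?_
    simp [mul_comm]
  · have h := coeff_prod_of_natDegree_le (univ : Finset (Fin L)) (fun k => Pq (w k : ℂ)) 2 (fun k _ => Pq_deg _)
    rw [card_univ, Fintype.card_fin, mul_comm L 2] at h
    rw [PD, h]
    exact prod_eq_one fun k _ => Pq_c2 _

private theorem PN_deg {L : ℕ} (w : Fin L → ℝ) (φ : ℂ[X]) (hφ : φ.natDegree ≤ L) :
    (PN w φ).natDegree ≤ 2 * L ∧ (PN w φ).coeff (2 * L) = φ.coeff L := by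
  have h1 : (∏ k : Fin L, (X - C (w k : ℂ))).natDegree = L := by
    rw [natDegree_prod_of_monic _ _ (fun k _ => monic_X_sub_C _)]
    simp
  have h2 : (∏ k : Fin L, (X - C (w k : ℂ))).coeff L = 1 := by
    have h3 : (∏ k : Fin L, (X - C (w k : ℂ))).Monic := monic_prod_of_monic _ _ (fun k _ => monic_X_sub_C _)
    have h4 := h3.coeff_natDegree
    rwa [h1] at h4
  constructor
  · refine (natDegree_mul_le).trans ?_
    rw [h1]
    omega
  · rw [PN, two_mul, coeff_mul_add_eq_of_natDegree_le hφ h1.le, h2, mul_one]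

private theorem PBj_deg {L : ℕ} (w : Fin L → ℝ) (j : Fin L) :
    ((X ^ 2 - C ((w j : ℂ) ^ 2)) * ∏ k ∈ univ.erase j, Pq (w k)).natDegree ≤ 2 * L ∧
    ((X ^ 2 - C ((w j : ℂ) ^ 2)) * ∏ k ∈ univ.erase j, Pq (w k)).coeff (2 * L) = 1 := by
  have hL : 1 ≤ L := by
    have := j.isLt
    omega
  have hcard : (univ.erase j : Finset (Fin L)).card = L - 1 := by
    rw [card_erase_of_mem (mem_univ j), card_univ, Fintype.card_fin]
  have h1 : (∏ k ∈ univ.erase j, Pq (w k : ℂ)).natDegree ≤ 2 * (L - 1) := by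
    refine (natDegree_prod_le _ _).trans ?_
    refine (sum_le_sum fun k _ => Pq_deg (w k)).trans ?_
    rw [sum_const, hcard, smul_eq_mul, mul_comm]
  have h2 : (∏ k ∈ univ.erase j, Pq (w k : ℂ)).coeff (2 * (L - 1)) = 1 := by
    have h := coeff_prod_of_natDegree_le (univ.erase j : Finset (Fin L)) (fun k => Pq (w k : ℂ)) 2 (fun k _ => Pq_deg _)
    rw [hcard, mul_comm (L - 1) 2] at h
    rw [h]
    exact prod_eq_one fun k _ => Pq_c2 _
  have h3 : (X ^ 2 - C ((w j : ℂ) ^ 2)).natDegree ≤ 2 := by compute_degree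
  have h4 : (X ^ 2 - C ((w j : ℂ) ^ 2)).coeff 2 = 1 := by
    rw [coeff_sub, coeff_X_pow, coeff_C]
    simp
  have h5 : 2 * L = 2 + 2 * (L - 1) := by omega
  constructor
  · refine natDegree_mul_le.trans ?_
    omega
  · rw [h5, coeff_mul_add_eq_of_natDegree_le h3 h1, h4, h2, mul_one]

private theorem PB_deg {L : ℕ} (w : Fin L → ℝ) (x : Fin L → ℂ) :
    (PB w x).natDegree ≤ 2 * L ∧ (PB w x).coeff (2 * L) = 2 * Complex.I * ∑ j : Fin L, x j := by
  constructor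
  · refine natDegree_sum_le_of_forall_le _ _ fun j _ => ?_
    exact (natDegree_C_mul_le _ _).trans (PBj_deg w j).1
  · rw [PB, finsetSum_coeff, mul_sum]
    refine sum_congr rfl fun j _ => ?_
    rw [coeff_C_mul, (PBj_deg w j).2, mul_one]

private theorem PB_c0 {L : ℕ} (w : Fin L → ℝ) (hw : ∀ j, 0 < w j) (x : Fin L → ℂ) :
    (PB w x).coeff 0 = (∏ k : Fin L, (w k : ℂ)) ^ 2 * (-(2 * Complex.I * ∑ j : Fin L, x j)) := by
  rw [PB, finsetSum_coeff, mul_sum, ← sum_neg_distrib, mul_sum]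
  refine sum_congr rfl fun j _ => ?_
  rw [coeff_C_mul, mul_coeff_zero, PF_prod_c0, ← mul_prod_erase univ (fun k => (w k : ℂ)) (mem_univ j), mul_pow,
    ← prod_pow]
  simp only [Pq_c0]
  have h4 := PF_q0 (w j : ℂ)
  rw [h4]
  ring

private theorem PB_c1 {L : ℕ} (w : Fin L → ℝ) (hw : ∀ j, 0 < w j) (x : Fin L → ℂ) :
    (PB w x).coeff 1 = (∏ k : Fin L, (w k : ℂ)) ^ 2 * (-(2 * Complex.I * (Real.sqrt 2 : ℂ)) *
      ∑ j : Fin L, x j * ((∑ k : Fin L, (w k : ℂ)⁻¹) - (w j : ℂ)⁻¹)) := by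
  have hw0 : ∀ j, (w j : ℂ) ≠ 0 := fun j => by exact_mod_cast (hw j).ne'
  rw [PB, finsetSum_coeff, mul_sum, mul_sum]
  refine sum_congr rfl fun j _ => ?_
  rw [coeff_C_mul, mul_coeff_one, PF_prod_c0, PF_prod_c1 _ _ (fun k _ => by rw [Pq_c0]; exact pow_ne_zero 2 (hw0 k)),
    ← mul_prod_erase univ (fun k => (w k : ℂ)) (mem_univ j), mul_pow, ← prod_pow]
  simp only [Pq_c0, Pq_c1]
  have h4 := PF_q0 (w j : ℂ)
  have h5 := PF_q1 (w j : ℂ)
  have h6 : ∑ k ∈ univ.erase j, (Real.sqrt 2 : ℂ) * (w k : ℂ) / (w k : ℂ) ^ 2 =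
      (Real.sqrt 2 : ℂ) * ((∑ k : Fin L, (w k : ℂ)⁻¹) - (w j : ℂ)⁻¹) := by
    rw [← add_sum_erase univ (fun k => (w k : ℂ)⁻¹) (mem_univ j), add_sub_cancel_left, mul_sum]
    refine sum_congr rfl fun k _ => ?_
    have := hw0 k
    field_simp
  rw [h4, h5, h6]
  ring

private theorem PD_c0 {L : ℕ} (w : Fin L → ℝ) : (PD w).coeff 0 = (∏ k : Fin L, (w k : ℂ)) ^ 2 := by
  rw [PD, PF_prod_c0, ← prod_pow]
  exact prod_congr rfl fun k _ => Pq_c0 _

private theorem PD_c1 {L : ℕ} (w : Fin L → ℝ) (hw : ∀ j, 0 < w j) :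
    (PD w).coeff 1 = (∏ k : Fin L, (w k : ℂ)) ^ 2 * ((Real.sqrt 2 : ℂ) * ∑ k : Fin L, (w k : ℂ)⁻¹) := by
  have hw0 : ∀ j, (w j : ℂ) ≠ 0 := fun j => by exact_mod_cast (hw j).ne'
  have h6 : ∑ k : Fin L, (Real.sqrt 2 : ℂ) * (w k : ℂ) / (w k : ℂ) ^ 2 =
      (Real.sqrt 2 : ℂ) * ∑ k : Fin L, (w k : ℂ)⁻¹ := by
    rw [mul_sum]
    refine sum_congr rfl fun k _ => ?_
    have := hw0 k
    field_simp
  rw [PD, PF_prod_c1 _ _ (fun k _ => by rw [Pq_c0]; exact pow_ne_zero 2 (hw0 k)), ← prod_pow]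
  simp only [Pq_c0, Pq_c1]
  rw [h6]

private theorem PN_c0 {L : ℕ} (w : Fin L → ℝ) (φ : ℂ[X]) :
    (PN w φ).coeff 0 = (-1) ^ L * φ.coeff 0 * ∏ k : Fin L, (w k : ℂ) := by
  rw [PN, mul_coeff_zero, PF_prod_c0]
  have : ∏ k : Fin L, (X - C (w k : ℂ)).coeff 0 = (-1) ^ L * ∏ k : Fin L, (w k : ℂ) := by
    have h1 : ∀ k : Fin L, (X - C (w k : ℂ)).coeff 0 = -1 * (w k : ℂ) := fun k => by simp
    rw [prod_congr rfl fun k _ => h1 k, prod_mul_distrib, prod_const, card_univ, Fintype.card_fin]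
  rw [this]
  ring

private theorem PN_c1 {L : ℕ} (w : Fin L → ℝ) (hw : ∀ j, 0 < w j) (φ : ℂ[X]) :
    (PN w φ).coeff 1 = (-1) ^ L * (φ.coeff 1 - (∑ k : Fin L, (w k : ℂ)⁻¹) * φ.coeff 0) * ∏ k : Fin L, (w k : ℂ) := by
  have hw0 : ∀ j, (w j : ℂ) ≠ 0 := fun j => by exact_mod_cast (hw j).ne'
  have h1 : ∀ k : Fin L, (X - C (w k : ℂ)).coeff 0 = -1 * (w k : ℂ) := fun k => by simp
  have h2 : ∀ k : Fin L, (X - C (w k : ℂ)).coeff 1 = 1 := fun k => by simp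
  rw [PN, mul_coeff_one, PF_prod_c0, PF_prod_c1 _ _ (fun k _ => by rw [h1]; simpa using hw0 k)]
  have h3 : ∏ k : Fin L, (X - C (w k : ℂ)).coeff 0 = (-1) ^ L * ∏ k : Fin L, (w k : ℂ) := by
    rw [prod_congr rfl fun k _ => h1 k, prod_mul_distrib, prod_const, card_univ, Fintype.card_fin]
  have h4 : ∑ k : Fin L, (X - C (w k : ℂ)).coeff 1 / (X - C (w k : ℂ)).coeff 0 = -∑ k : Fin L, (w k : ℂ)⁻¹ := by
    rw [← sum_neg_distrib]
    refine sum_congr rfl fun k _ => ?_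
    rw [h1, h2]
    have := hw0 k
    field_simp
  rw [h3, h4]
  ring

private theorem PF_id (L : ℕ) (w : Fin L → ℝ) (hw : ∀ j, 0 < w j) (hinj : Function.Injective w) (φ : ℂ[X])
    (hφ : φ.natDegree ≤ L)
    (hres : ∀ j : Fin L,
      φ.eval ((w j : ℂ) * qq) * ((w j : ℂ) * qq - w j) / (((w j : ℂ) * qq) ^ 2 - (w j : ℂ) ^ 2) *
          ∏ k ∈ univ.erase j, (((w j : ℂ) * qq - w k) / Dq ((w j : ℂ) * qq) (w k)) =
        φ.eval ((w j : ℂ) / qq) * ((w j : ℂ) / qq - w j) / (((w j : ℂ) / qq) ^ 2 - (w j : ℂ) ^ 2) *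
          ∏ k ∈ univ.erase j, (((w j : ℂ) / qq - w k) / Dq ((w j : ℂ) / qq) (w k))) :
    ∃ (x : Fin L → ℂ) (c : ℂ), PN w φ = PB w x + C c * PD w := by
  classical
  set x : Fin L → ℂ := fun j => (2 * Complex.I)⁻¹ *
    (φ.eval ((w j : ℂ) * qq) * ((w j : ℂ) * qq - w j) / (((w j : ℂ) * qq) ^ 2 - (w j : ℂ) ^ 2) *
          ∏ k ∈ univ.erase j, (((w j : ℂ) * qq - w k) / Dq ((w j : ℂ) * qq) (w k))) with hx
  have h2I : (2 * Complex.I) ≠ 0 := mul_ne_zero two_ne_zero Complex.I_ne_zero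
  have hx1 : ∀ j, 2 * Complex.I * x j = φ.eval ((w j : ℂ) * qq) * ((w j : ℂ) * qq - w j) /
      (((w j : ℂ) * qq) ^ 2 - (w j : ℂ) ^ 2) *
          ∏ k ∈ univ.erase j, (((w j : ℂ) * qq - w k) / Dq ((w j : ℂ) * qq) (w k)) := by
    intro j
    rw [hx, mul_inv_cancel_left₀ h2I]
  have hne : ∀ j k : Fin L, k ≠ j → w j ≠ w k := fun j k h h' => h (hinj h'.symm)
  have hr1 : ∀ j, (PN w φ).eval ((w j : ℂ) * qq) = (PB w x).eval ((w j : ℂ) * qq) ∧
      (PD w).eval ((w j : ℂ) * qq) = 0 := fun j => by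
    refine PF_root w φ x j _ ?_ (fun k hk => PF_D_q _ _ (hw j) (hne j k hk)) (PF_sq_q _ (hw j)) (hx1 j)
    rw [PF_fac]
    ring
  have hr2 : ∀ j, (PN w φ).eval ((w j : ℂ) / qq) = (PB w x).eval ((w j : ℂ) / qq) ∧
      (PD w).eval ((w j : ℂ) / qq) = 0 := fun j => by
    refine PF_root w φ x j _ ?_ (fun k hk => PF_D_qi _ _ (hw k) (hne j k hk)) (PF_sq_qi _ (hw j))
      ((hx1 j).trans (hres j))
    rw [PF_fac]
    ring
  set c : ℂ := (PN w φ).coeff (2 * L) - (PB w x).coeff (2 * L) with hc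
  refine ⟨x, c, ?_⟩
  have hR : PN w φ - (PB w x + C c * PD w) = 0 := by
    set pts : Fin L × Bool → ℂ := fun p => if p.2 then (w p.1 : ℂ) * qq else (w p.1 : ℂ) / qq with hpts
    have hptsinj : Function.Injective pts := by
      rintro ⟨i, a⟩ ⟨j, b⟩ h
      cases a <;> cases b <;> simp only [hpts, if_true, Bool.false_eq_true, if_false] at h
      · rw [div_left_inj' PF_qq_ne] at h
        rw [hinj (by exact_mod_cast h : w i = w j)]
      · exact absurd h.symm (PF_qq_ne_real _ _ (hw j))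
      · exact absurd h (PF_qq_ne_real _ _ (hw i))
      · have := mul_right_cancel₀ PF_qq_ne h
        rw [hinj (by exact_mod_cast this : w i = w j)]
    refine eq_zero_of_degree_lt_of_eval_finset_eq_zero (s := univ.image pts) ?_ ?_
    · rw [card_image_of_injective _ hptsinj, card_univ, Fintype.card_prod, Fintype.card_fin, Fintype.card_bool,
        degree_lt_iff_coeff_zero]
      intro m hm
      rcases (show 2 * L ≤ m by omega).lt_or_eq with h | h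
      · rw [coeff_sub, coeff_add, coeff_C_mul, coeff_eq_zero_of_natDegree_lt ((PN_deg w φ hφ).1.trans_lt h),
          coeff_eq_zero_of_natDegree_lt ((PB_deg w x).1.trans_lt h),
          coeff_eq_zero_of_natDegree_lt ((PD_deg w).1.trans_lt h)]
        ring
      · rw [← h, coeff_sub, coeff_add, coeff_C_mul, (PD_deg w).2, hc]
        ring
    · intro z hz
      obtain ⟨⟨j, b⟩, -, rfl⟩ := mem_image.1 hz
      cases b
      · show (PN w φ - (PB w x + C c * PD w)).eval (pts (j, false)) = 0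
        simp only [hpts, Bool.false_eq_true, if_false, eval_sub, eval_add, eval_mul, eval_C, (hr2 j).1, (hr2 j).2]
        ring
      · show (PN w φ - (PB w x + C c * PD w)).eval (pts (j, true)) = 0
        simp only [hpts, if_true, eval_sub, eval_add, eval_mul, eval_C, (hr1 j).1, (hr1 j).2]
        ring
  exact sub_eq_zero.1 hR

/-- **Partial fractions.**  `w j > 0` distinct, `φ` of degree `≤ L`, equal residues at `w_j q` and `w_j / q`:
the two values of `φ(w) ∏_{k≠j} (w - w_k)/Dq w w_k` at `w = w_j q^{±1}`, multiplied by the local factor of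
`(w - w_j)/Dq w w_j`, agree up to the factor which comes from `2i (w² - w_j²)`. -/
theorem pf (L : ℕ) (w : Fin L → ℝ) (hw : ∀ j, 0 < w j) (hinj : Function.Injective w) (φ : ℂ[X])
    (hφ : φ.natDegree ≤ L)
    (hres : ∀ j : Fin L,
      φ.eval ((w j : ℂ) * qq) * ((w j : ℂ) * qq - w j) / (((w j : ℂ) * qq) ^ 2 - (w j : ℂ) ^ 2) *
          ∏ k ∈ univ.erase j, (((w j : ℂ) * qq - w k) / Dq ((w j : ℂ) * qq) (w k)) =
        φ.eval ((w j : ℂ) / qq) * ((w j : ℂ) / qq - w j) / (((w j : ℂ) / qq) ^ 2 - (w j : ℂ) ^ 2) *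
          ∏ k ∈ univ.erase j, (((w j : ℂ) / qq - w k) / Dq ((w j : ℂ) / qq) (w k))) :
    ∃ (x : Fin L → ℂ) (c : ℂ),
      (∀ i : Fin L, 2 * Complex.I * ∑ j : Fin L, (((w i : ℂ) ^ 2 - (w j : ℂ) ^ 2) / Dq (w i) (w j)) * x j = -c) ∧
      φ.coeff L = c + 2 * Complex.I * ∑ j : Fin L, x j ∧
      (-1) ^ L * φ.coeff 0 * ∏ k : Fin L, (w k : ℂ)⁻¹ = c - 2 * Complex.I * ∑ j : Fin L, x j ∧
      (-1) ^ L * (φ.coeff 1 - (1 + (Real.sqrt 2 : ℂ)) * (∑ k : Fin L, (w k : ℂ)⁻¹) * φ.coeff 0) *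
          ∏ k : Fin L, (w k : ℂ)⁻¹ =
        2 * Complex.I * (Real.sqrt 2 : ℂ) * ∑ j : Fin L, x j / w j := by
  have hw0 : ∀ j, (w j : ℂ) ≠ 0 := fun j => by exact_mod_cast (hw j).ne'
  obtain ⟨x, c, h⟩ := PF_id L w hw hinj φ hφ hres
  have hW : (∏ k : Fin L, (w k : ℂ)) ≠ 0 := prod_ne_zero_iff.2 fun k _ => hw0 k
  have h0 : (-1) ^ L * φ.coeff 0 * ∏ k : Fin L, (w k : ℂ)⁻¹ = c - 2 * Complex.I * ∑ j : Fin L, x j := by
    have h1 := congrArg (fun p => p.coeff 0) h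
    simp only [coeff_add, coeff_C_mul, PN_c0, PB_c0 w hw, PD_c0] at h1
    rw [prod_inv_distrib]
    have h2 : (-1) ^ L * φ.coeff 0 * (∏ k : Fin L, (w k : ℂ)) =
      (c - 2 * Complex.I * ∑ j : Fin L, x j) * (∏ k : Fin L, (w k : ℂ)) ^ 2 := by
      rw [h1]
      ring
    have h5 : (-1) ^ L * φ.coeff 0 * (∏ k : Fin L, (w k : ℂ))⁻¹ =
        ((-1) ^ L * φ.coeff 0 * ∏ k : Fin L, (w k : ℂ)) * ((∏ k : Fin L, (w k : ℂ))⁻¹) ^ 2 := by
      field_simp
    rw [h5, h2]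
    field_simp
  refine ⟨x, c, ?_, ?_, h0, ?_⟩
  · intro i
    have h1 := congrArg (fun p => p.eval (w i : ℂ)) h
    have h2 : (PN w φ).eval (w i : ℂ) = 0 := by
      rw [PN, eval_mul, eval_prod, prod_eq_zero (mem_univ i) (by simp), mul_zero]
    have h3 : (PD w).eval (w i : ℂ) = ∏ k : Fin L, Dq (w i) (w k) := by
      rw [PD, eval_prod]
      exact prod_congr rfl fun k _ => Pq_eval _ _
    have h4 : ∏ k : Fin L, Dq (w i) (w k) ≠ 0 := prod_ne_zero_iff.2 fun k _ => PF_D_real _ _ (hw i) (hw k)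
    have h5 : (PB w x).eval (w i : ℂ) = (2 * Complex.I *
        ∑ j : Fin L, (((w i : ℂ) ^ 2 - (w j : ℂ) ^ 2) / Dq (w i) (w j)) * x j) * ∏ k : Fin L, Dq (w i) (w k) := by
      rw [PB, eval_finsetSum, mul_sum, sum_mul]
      refine sum_congr rfl fun j _ => ?_
      simp only [eval_mul, eval_C, eval_sub, eval_pow, eval_X, eval_prod, Pq_eval]
      rw [← mul_prod_erase univ (fun k => Dq (w i) (w k)) (mem_univ j)]
      have := PF_D_real _ _ (hw i) (hw j)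
      field_simp
    simp only [eval_add, eval_mul, eval_C] at h1
    rw [h2, h3, h5] at h1
    have h6 : (2 * Complex.I * ∑ j : Fin L, (((w i : ℂ) ^ 2 - (w j : ℂ) ^ 2) / Dq (w i) (w j)) * x j + c) *
        ∏ k : Fin L, Dq (w i) (w k) = 0 := by
      rw [add_mul]
      exact h1.symm
    rcases mul_eq_zero.1 h6 with h7 | h7
    · exact eq_neg_of_add_eq_zero_left h7
    · exact absurd h7 h4
  · have h1 := congrArg (fun p => p.coeff (2 * L)) h
    simp only [coeff_add, coeff_C_mul, (PN_deg w φ hφ).2, (PB_deg w x).2, (PD_deg w).2] at h1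
    rw [h1]
    ring
  · have h1 := congrArg (fun p => p.coeff 1) h
    simp only [coeff_add, coeff_C_mul, PN_c1 w hw, PB_c1 w hw, PD_c1 w hw] at h1
    rw [prod_inv_distrib] at h0 ⊢
    set W := ∏ k : Fin L, (w k : ℂ) with hWd
    set S := ∑ k : Fin L, (w k : ℂ)⁻¹ with hS
    have h3 : ∑ j : Fin L, x j * (S - (w j : ℂ)⁻¹) = S * (∑ j : Fin L, x j) - ∑ j : Fin L, x j / w j := by
      rw [mul_sum, ← sum_sub_distrib]
      refine sum_congr rfl fun j _ => ?_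
      rw [div_eq_mul_inv]
      ring
    rw [h3] at h1
    have h4 : (-1) ^ L * (φ.coeff 1 - S * φ.coeff 0) * W⁻¹ = -(2 * Complex.I * (Real.sqrt 2 : ℂ)) *
        (S * (∑ j : Fin L, x j) - ∑ j : Fin L, x j / w j) + c * ((Real.sqrt 2 : ℂ) * S) := by
      have h5 : (-1) ^ L * (φ.coeff 1 - S * φ.coeff 0) * W⁻¹ =
          ((-1) ^ L * (φ.coeff 1 - S * φ.coeff 0) * W) * (W⁻¹) ^ 2 := by
        field_simp
      rw [h5, h1]
      field_simp
    have h6 : (-1) ^ L * (φ.coeff 1 - (1 + (Real.sqrt 2 : ℂ)) * S * φ.coeff 0) * W⁻¹ =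
        (-1) ^ L * (φ.coeff 1 - S * φ.coeff 0) * W⁻¹ - (Real.sqrt 2 : ℂ) * S * ((-1) ^ L * φ.coeff 0 * W⁻¹) := by
      ring
    rw [h6, h4, h0]
    ring

end Pool.Agent.BEX.A3
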