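import Pool.Agent.BEX.A3.Trig

/-!
# BEX/A3/Res: the relations of step 3 are equalities of residues (see `Trig.lean`)
-/

namespace Pool.Agent.BEX.A3

open Finset Polynomial

private theorem Res_qq : qq = -((Real.sqrt 2 : ℂ) / 2) + (Real.sqrt 2 : ℂ) / 2 * Complex.I := by
  have h1 : (3 * Real.pi / 4 : ℂ) = ((Real.pi - Real.pi / 4 : ℝ) : ℂ) := by
    push_cast
    ring
  rw [qq, h1, Complex.exp_mul_I, ← Complex.ofReal_cos, ← Complex.ofReal_sin, Real.cos_pi_sub, Real.sin_pi_sub,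
    Real.cos_pi_div_four, Real.sin_pi_div_four]
  push_cast
  ring

private theorem Res_s2 : (Real.sqrt 2 : ℂ) ^ 2 = 2 := by
  rw [← Complex.ofReal_pow, Real.sq_sqrt (by norm_num)]
  norm_num

private theorem Res_qq2 : qq ^ 2 = -Complex.I := by
  rw [Res_qq]
  have h := Res_s2
  have hI := Complex.I_sq
  linear_combination ((1 / 4 : ℂ) - Complex.I / 2 + Complex.I ^ 2 / 4) * h + (1 / 2 : ℂ) * hI

private theorem Res_sq : (Real.sqrt 2 : ℂ) * qq = Complex.I - 1 := by
  rw [Res_qq]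
  have h := Res_s2
  linear_combination (-(1 / 2 : ℂ) + Complex.I / 2) * h

private theorem Res_qq0 : qq ≠ 0 := Complex.exp_ne_zero _

/-- `kk` in exponential form -/
private theorem Res_kk (δ : ℂ) : kk δ * (-4 * (Complex.exp (Complex.I * (Real.pi / 4)) *
      Complex.exp (Complex.I * (3 * Real.pi / 8)))) * Complex.exp (Complex.I * δ) ^ 2 =
    (Complex.I * Complex.exp (Complex.I * δ) ^ 2 - 1) * (qq * Complex.exp (Complex.I * δ) ^ 2 - 1) := by
  set c := Complex.exp (Complex.I * (Real.pi / 4)) with hc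
  set d := Complex.exp (Complex.I * (3 * Real.pi / 8)) with hd
  set t := Complex.exp (Complex.I * δ) with ht
  have hc0 : c ≠ 0 := Complex.exp_ne_zero _
  have hd0 : d ≠ 0 := Complex.exp_ne_zero _
  have ht0 : t ≠ 0 := Complex.exp_ne_zero _
  have hc2 : c ^ 2 = Complex.I := by
    rw [hc, ← Complex.exp_nat_mul]
    have : ((2 : ℕ) : ℂ) * (Complex.I * (Real.pi / 4)) = Real.pi / 2 * Complex.I := by
      push_cast
      ring
    rw [this, Complex.exp_pi_div_two_mul_I]
  have hd2 : d ^ 2 = qq := by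
    rw [hd, ← Complex.exp_nat_mul, qq]
    congr 1
    push_cast
    ring
  have h1 : Complex.sin (Real.pi / 4 + δ) = (c⁻¹ * t⁻¹ - c * t) * Complex.I / 2 := by
    rw [Complex.sin]
    have e1 : Complex.exp (-(Real.pi / 4 + δ) * Complex.I) = c⁻¹ * t⁻¹ := by
      rw [hc, ht, ← Complex.exp_neg, ← Complex.exp_neg, ← Complex.exp_add]
      congr 1
      ring
    have e2 : Complex.exp ((Real.pi / 4 + δ) * Complex.I) = c * t := by
      rw [hc, ht, ← Complex.exp_add]
      congr 1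
      ring
    rw [e1, e2]
  have h2 : Complex.sin (3 * Real.pi / 8 + δ) = (d⁻¹ * t⁻¹ - d * t) * Complex.I / 2 := by
    rw [Complex.sin]
    have e1 : Complex.exp (-(3 * Real.pi / 8 + δ) * Complex.I) = d⁻¹ * t⁻¹ := by
      rw [hd, ht, ← Complex.exp_neg, ← Complex.exp_neg, ← Complex.exp_add]
      congr 1
      ring
    have e2 : Complex.exp ((3 * Real.pi / 8 + δ) * Complex.I) = d * t := by
      rw [hd, ht, ← Complex.exp_add]
      congr 1
      ring
    rw [e1, e2]
  have hR : (Complex.I * t ^ 2 - 1) * (qq * t ^ 2 - 1) = (c ^ 2 * t ^ 2 - 1) * (d ^ 2 * t ^ 2 - 1) := by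
    rw [hc2, hd2]
  rw [kk, h1, h2, hR]
  have hI := Complex.I_sq
  have e1 : c⁻¹ * t⁻¹ - c * t = (1 - c ^ 2 * t ^ 2) / (c * t) := by
    field_simp
  have e2 : d⁻¹ * t⁻¹ - d * t = (1 - d ^ 2 * t ^ 2) / (d * t) := by
    field_simp
  rw [e1, e2]
  field_simp
  linear_combination (-4 * (c ^ 2 * t ^ 2 - 1) * (d ^ 2 * t ^ 2 - 1)) * hI

private theorem Res_sin_ne (x y : ℝ) (hx : 0 < Real.sin x) : Complex.sin (x + y * Complex.I) ≠ 0 := by
  intro h
  have h1 := congrArg Complex.re h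
  rw [Complex.sin_add, Complex.cos_mul_I, Complex.sin_mul_I, ← Complex.ofReal_sin, ← Complex.ofReal_cos,
    ← Complex.ofReal_cosh, ← Complex.ofReal_sinh] at h1
  simp only [Complex.add_re, Complex.mul_re, Complex.ofReal_re, Complex.ofReal_im, Complex.mul_im, Complex.I_re,
    Complex.I_im, Complex.zero_re] at h1
  have h2 := Real.cosh_pos y
  have h3 := mul_pos hx h2
  ring_nf at h1
  linarith

private theorem Res_kk_ne (y : ℝ) : kk (y * Complex.I) ≠ 0 := by
  rw [kk]
  refine mul_ne_zero ?_ ?_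
  · have h := Res_sin_ne (Real.pi / 4) y (Real.sin_pos_of_pos_of_lt_pi (by positivity) (by linarith [Real.pi_pos]))
    push_cast at h
    exact h
  · have h := Res_sin_ne (3 * Real.pi / 8) y
      (Real.sin_pos_of_pos_of_lt_pi (by positivity) (by linarith [Real.pi_pos]))
    push_cast at h
    exact h

private theorem Res_uu {L : ℕ} (ε : ℝ) (j k : Fin L) :
    uu ε j - uu ε k = ((((j : ℕ) : ℝ) - ((k : ℕ) : ℝ)) * ε / 2 : ℝ) * Complex.I := by
  simp only [uu]
  push_cast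
  ring

private theorem Res_exp {L : ℕ} (ε : ℝ) (j k : Fin L) :
    Complex.exp (Complex.I * (uu ε j - uu ε k)) ^ 2 = (ww ε j : ℂ) / ww ε k := by
  have h1 : (ww ε j : ℂ) / ww ε k = Complex.exp (-((((j : ℕ) : ℂ)) * ε) + (((k : ℕ) : ℂ)) * ε) := by
    rw [Complex.exp_add, ww, ww]
    push_cast
    rw [Complex.exp_neg ((((k : ℕ) : ℂ)) * ε), div_inv_eq_mul]
  rw [h1, ← Complex.exp_nat_mul, uu, uu]
  congr 1
  have hI := Complex.I_sq
  push_cast
  linear_combination ((((j : ℕ) : ℂ)) * ε - (((k : ℕ) : ℂ)) * ε) * hI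

/-- the identity for one factor -/
private theorem Res_factor {a b κ κ' e : ℂ} (ha : a ≠ 0) (hb : b ≠ 0) (hab : a ≠ b) (h1 : Complex.I * a - b ≠ 0)
    (h2 : -Complex.I * a - b ≠ 0) (he : e ≠ 0)
    (hκ : κ * e * (a / b) = (Complex.I * (a / b) - 1) * (qq * (a / b) - 1))
    (hκ' : κ' * e * (b / a) = (Complex.I * (b / a) - 1) * (qq * (b / a) - 1)) :
    qq * ((a * qq - b) / Dq (a * qq) b) * κ' = (a / qq - b) / Dq (a / qq) b * κ := by
  have hq0 := Res_qq0
  have hq2 := Res_qq2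
  have hsq := Res_sq
  have hI := Complex.I_sq
  have hab' : a - b ≠ 0 := sub_ne_zero.2 hab
  have hD1 : Dq (a * qq) b = (a - b) * (-Complex.I * a - b) := by
    rw [Dq]
    linear_combination a ^ 2 * hq2 + a * b * hsq
  have hqi : qq⁻¹ = Complex.I * qq := (eq_inv_of_mul_eq_one_left (by
    linear_combination Complex.I * hq2 - hI)).symm
  have hD2 : Dq (a / qq) b = (a - b) * (Complex.I * a - b) := by
    rw [Dq, div_eq_mul_inv, hqi]
    linear_combination (a ^ 2 * Complex.I ^ 2) * hq2 + a * b * Complex.I * hsq + (-a ^ 2 * Complex.I + a * b) * hI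
  have hk : κ * (e * a * b) = (Complex.I * a - b) * (qq * a - b) := by
    field_simp at hκ
    linear_combination hκ
  have hk' : κ' * (e * a * b) = (Complex.I * b - a) * (qq * b - a) := by
    field_simp at hκ'
    linear_combination hκ'
  have hden : e * a * b ≠ 0 := mul_ne_zero (mul_ne_zero he ha) hb
  rw [hD1, hD2, div_eq_mul_inv a qq, hqi]
  apply mul_right_cancel₀ hden
  have e1 : qq * ((a * qq - b) / ((a - b) * (-Complex.I * a - b))) * κ' * (e * a * b) =
      qq * ((a * qq - b) / ((a - b) * (-Complex.I * a - b))) * ((Complex.I * b - a) * (qq * b - a)) := by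
    rw [mul_assoc _ κ', hk']
  have e2 : (a * (Complex.I * qq) - b) / ((a - b) * (Complex.I * a - b)) * κ * (e * a * b) =
      (a * (Complex.I * qq) - b) / ((a - b) * (Complex.I * a - b)) * ((Complex.I * a - b) * (qq * a - b)) := by
    rw [mul_assoc _ κ, hk]
  rw [e1, e2]
  have e3 : Complex.I * b - a = -Complex.I * (-Complex.I * a - b) := by
    linear_combination (-a) * hI
  rw [e3]
  obtain ⟨X, hX⟩ : ∃ X, X = -Complex.I * a - b := ⟨_, rfl⟩
  obtain ⟨Y, hY⟩ : ∃ Y, Y = Complex.I * a - b := ⟨_, rfl⟩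
  obtain ⟨Z, hZ⟩ : ∃ Z, Z = a - b := ⟨_, rfl⟩
  rw [← hX, ← hY, ← hZ]
  rw [← hX] at h2
  rw [← hY] at h1
  rw [← hZ] at hab'
  have f1 : qq * ((a * qq - b) / (Z * X)) * (-Complex.I * X * (qq * b - a)) =
      (qq * (a * qq - b) * (-Complex.I) * (qq * b - a)) / Z := by
    field_simp
  have f2 : (a * (Complex.I * qq) - b) / (Z * Y) * (Y * (qq * a - b)) =
      ((a * (Complex.I * qq) - b) * (qq * a - b)) / Z := by
    field_simp
  rw [f1, f2]
  congr 1
  linear_combination (a * qq - b) * b * hI - (a * qq - b) * b * Complex.I * hq2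

theorem rel_res {L : ℕ} (ρ : Finset (Fin L) → ℂ) (hodd : ∀ T, Odd T.card → ρ T = 0) (ε : ℝ) (hε : ε ≠ 0)
    (h : Rel ρ (uu ε)) (j : Fin L) :
    (phi ρ ε).eval ((ww ε j : ℂ) * qq) * ((ww ε j : ℂ) * qq - ww ε j) /
          (((ww ε j : ℂ) * qq) ^ 2 - (ww ε j : ℂ) ^ 2) *
        ∏ k ∈ univ.erase j, (((ww ε j : ℂ) * qq - ww ε k) / Dq ((ww ε j : ℂ) * qq) (ww ε k)) =
      (phi ρ ε).eval ((ww ε j : ℂ) / qq) * ((ww ε j : ℂ) / qq - ww ε j) /
          (((ww ε j : ℂ) / qq) ^ 2 - (ww ε j : ℂ) ^ 2) *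
        ∏ k ∈ univ.erase j, (((ww ε j : ℂ) / qq - ww ε k) / Dq ((ww ε j : ℂ) / qq) (ww ε k)) := by
  have hq0 := Res_qq0
  have hq2 := Res_qq2
  have hI := Complex.I_sq
  have hwpos : ∀ k : Fin L, 0 < ww ε k := fun k => Real.exp_pos _
  have hw0 : ∀ k : Fin L, (ww ε k : ℂ) ≠ 0 := fun k => by exact_mod_cast (hwpos k).ne'
  have hinj : ∀ k : Fin L, k ≠ j → (ww ε j : ℂ) ≠ ww ε k := by
    intro k hk hjk
    have h1 : ww ε j = ww ε k := by exact_mod_cast hjk
    rw [ww, ww, Real.exp_eq_exp, neg_inj] at h1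
    have h2 := mul_right_cancel₀ hε h1
    exact hk (Fin.ext (by exact_mod_cast h2.symm))
  have hne : ∀ (a b : ℝ), 0 < a → 0 < b → Complex.I * (a : ℂ) - b ≠ 0 ∧ -Complex.I * (a : ℂ) - b ≠ 0 := by
    intro a b ha hb
    constructor
    · intro h0
      have := congrArg Complex.re h0
      simp at this
      linarith
    · intro h0
      have := congrArg Complex.re h0
      simp at this
      linarith
  set e : ℂ := -4 * (Complex.exp (Complex.I * (Real.pi / 4)) * Complex.exp (Complex.I * (3 * Real.pi / 8))) with he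
  have he0 : e ≠ 0 := mul_ne_zero (by norm_num) (mul_ne_zero (Complex.exp_ne_zero _) (Complex.exp_ne_zero _))
  have hfac : ∀ k ∈ univ.erase j, qq * (((ww ε j : ℂ) * qq - ww ε k) / Dq ((ww ε j : ℂ) * qq) (ww ε k)) *
      kk (uu ε k - uu ε j) =
      (((ww ε j : ℂ) / qq - ww ε k) / Dq ((ww ε j : ℂ) / qq) (ww ε k)) * kk (uu ε j - uu ε k) := by
    intro k hk
    have hkj := (Finset.mem_erase.1 hk).1
    obtain ⟨n1, n2⟩ := hne _ _ (hwpos j) (hwpos k)
    refine Res_factor (hw0 j) (hw0 k) (hinj k hkj) n1 n2 he0 ?_ ?_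
    · have := Res_kk (uu ε j - uu ε k)
      rw [Res_exp] at this
      exact this
    · have := Res_kk (uu ε k - uu ε j)
      rw [Res_exp] at this
      exact this
  have hprod := Finset.prod_congr rfl hfac
  rw [Finset.prod_mul_distrib, Finset.prod_mul_distrib, Finset.prod_mul_distrib, Finset.prod_const] at hprod
  set A := ∏ k ∈ univ.erase j, (((ww ε j : ℂ) * qq - ww ε k) / Dq ((ww ε j : ℂ) * qq) (ww ε k)) with hA
  set B := ∏ k ∈ univ.erase j, (((ww ε j : ℂ) / qq - ww ε k) / Dq ((ww ε j : ℂ) / qq) (ww ε k)) with hB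
  set K1 := ∏ k ∈ univ.erase j, kk (uu ε j - uu ε k) with hK1
  set K2 := ∏ k ∈ univ.erase j, kk (uu ε k - uu ε j) with hK2
  have hK10 : K1 ≠ 0 := by
    rw [hK1, Finset.prod_ne_zero_iff]
    intro k _
    rw [Res_uu]
    exact Res_kk_ne _
  have hcard : (univ.erase j).card = L - 1 := by
    rw [Finset.card_erase_of_mem (Finset.mem_univ j), Finset.card_univ, Fintype.card_fin]
  have hL : 1 ≤ L := Nat.one_le_iff_ne_zero.2 (fun h0 => by subst h0; exact j.elim0)
  rw [hcard] at hprod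
  -- the relation
  have hr := h j
  rw [phi_eval ρ hodd, phi_eval ρ hodd, ← hK1, ← hK2] at hr
  have hwj : (ww ε j : ℂ) = Complex.exp (2 * Complex.I * uu ε j) := by
    rw [ww, uu]
    push_cast
    congr 1
    linear_combination (-(((j : ℕ) : ℂ)) * ε) * hI
  have hv1 : Complex.exp (2 * Complex.I * (uu ε j + 3 * Real.pi / 8)) = (ww ε j : ℂ) * qq := by
    rw [hwj, qq, ← Complex.exp_add]
    congr 1
    ring
  have hv2 : Complex.exp (2 * Complex.I * (uu ε j - 3 * Real.pi / 8)) = (ww ε j : ℂ) / qq := by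
    rw [hwj, qq, ← Complex.exp_sub]
    congr 1
    ring
  rw [hv1, hv2] at hr
  have hv3 : Complex.exp (-(L : ℂ) * Complex.I * (uu ε j - 3 * Real.pi / 8)) =
      Complex.exp (-(L : ℂ) * Complex.I * (uu ε j + 3 * Real.pi / 8)) * qq ^ L := by
    rw [qq, ← Complex.exp_nat_mul, ← Complex.exp_add]
    congr 1
    ring
  rw [hv3] at hr
  set E := Complex.exp (-(L : ℂ) * Complex.I * (uu ε j + 3 * Real.pi / 8)) with hE
  have hE0 : E ≠ 0 := Complex.exp_ne_zero _
  set φ1 := (phi ρ ε).eval ((ww ε j : ℂ) * qq) with hφ1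
  set φ2 := (phi ρ ε).eval ((ww ε j : ℂ) / qq) with hφ2
  have hr' : K1 * φ1 = K2 * (qq ^ L * φ2) := by
    apply mul_left_cancel₀ hE0
    linear_combination hr
  have hqL : qq ^ L = qq * qq ^ (L - 1) := by
    rw [← pow_succ']
    congr 1
    omega
  have hmain : φ1 * A = qq * φ2 * B := by
    apply mul_right_cancel₀ hK10
    rw [hqL] at hr'
    linear_combination A * hr' + qq * φ2 * hprod
  -- the local factors
  have hqm : qq ^ 2 - 1 ≠ 0 := by
    rw [hq2]
    intro h0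
    have := congrArg Complex.im h0
    simp at this
  have hqp : qq + 1 ≠ 0 := by
    intro h0
    apply hqm
    linear_combination (qq - 1) * h0
  have hq1 : qq - 1 ≠ 0 := by
    intro h0
    apply hqm
    linear_combination (qq + 1) * h0
  have hw := hw0 j
  have l1 : ((ww ε j : ℂ) * qq - ww ε j) / (((ww ε j : ℂ) * qq) ^ 2 - (ww ε j : ℂ) ^ 2) =
      1 / ((ww ε j : ℂ) * (qq + 1)) := by
    have : ((ww ε j : ℂ) * qq) ^ 2 - (ww ε j : ℂ) ^ 2 = ((ww ε j : ℂ) * qq - ww ε j) * ((ww ε j : ℂ) * (qq + 1)) := by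
      ring
    have hx : (ww ε j : ℂ) * qq - ww ε j ≠ 0 := by
      have : (ww ε j : ℂ) * qq - ww ε j = ww ε j * (qq - 1) := by ring
      rw [this]
      exact mul_ne_zero hw hq1
    rw [this]
    field_simp
  have l2 : ((ww ε j : ℂ) / qq - ww ε j) / (((ww ε j : ℂ) / qq) ^ 2 - (ww ε j : ℂ) ^ 2) =
      qq / ((ww ε j : ℂ) * (qq + 1)) := by
    have : ((ww ε j : ℂ) / qq) ^ 2 - (ww ε j : ℂ) ^ 2 =
        ((ww ε j : ℂ) / qq - ww ε j) * ((ww ε j : ℂ) * (qq + 1) / qq) := by
      field_simp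
      ring
    have hx : (ww ε j : ℂ) / qq - ww ε j ≠ 0 := by
      have : (ww ε j : ℂ) / qq - ww ε j = -(ww ε j * (qq - 1) / qq) := by
        field_simp
        ring
      rw [this]
      exact neg_ne_zero.2 (div_ne_zero (mul_ne_zero hw hq1) hq0)
    rw [this, div_mul_cancel_left₀ hx, inv_div]
  rw [mul_div_assoc, mul_div_assoc, l1, l2]
  field_simp
  linear_combination hmain

end Pool.Agent.BEX.A3
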