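import Pool.Agent.BEX.A3.Res

/-!
# BEX/A3/Sys: the linear system at `ε ≠ 0` (see `Trig.lean`)

With `K = (2i)^L ∏ z_k`: `K φ_L = i^L`, `(-1)^L K φ_0 ∏ w_k⁻¹ = (-i)^L`, and
`(-1)^L K (φ_1 - (1+√2) φ_0 ∑ 1/w_k) ∏ w_k⁻¹ = (-i)^L (4 ∑ ρ(T)/∏ z - √2 ∑ 1/w_k) = -√2 (-i)^L XX`.
-/

namespace Pool.Agent.BEX.A3

open Finset Polynomial

/-- `X_ε = ∑_k e^{kε} - 2√2 ∑_{|T|=2} ρ(T) ∏_{l∈T} e^{lε/2}` -/
noncomputable def XX {L : ℕ} (ρ : Finset (Fin L) → ℂ) (ε : ℝ) : ℂ :=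
  ∑ k : Fin L, ((Real.exp (((k : ℕ) : ℝ) * ε) : ℝ) : ℂ) - 2 * (Real.sqrt 2 : ℂ) *
    ∑ T ∈ (univ : Finset (Finset (Fin L))).filter (fun T => T.card = 2),
        ρ T * ∏ l ∈ T, ((Real.exp (((l : ℕ) : ℝ) * ε / 2) : ℝ) : ℂ)

/-- the number `P` -/
noncomputable def PP (L : ℕ) : ℂ := Complex.I / 2 * (-Complex.I) ^ L

theorem PP_ne (L : ℕ) : PP L ≠ 0 := by
  unfold PP
  simp

/-- `(w_i² - w_j²)/Dq = -kap((i-j)ε)` -/
theorem quot_eq {L : ℕ} (ε : ℝ) (i j : Fin L) :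
    ((ww ε i : ℂ) ^ 2 - (ww ε j : ℂ) ^ 2) / Dq (ww ε i) (ww ε j) =
      -(kap ((((i : ℕ) : ℝ) - ((j : ℕ) : ℝ)) * ε) : ℂ) := by
  have h : (ww ε i ^ 2 - ww ε j ^ 2) / (ww ε i ^ 2 + Real.sqrt 2 * ww ε i * ww ε j + ww ε j ^ 2) =
      -kap ((((i : ℕ) : ℝ) - ((j : ℕ) : ℝ)) * ε) := by
    have hi : 0 < ww ε i := Real.exp_pos _
    have hj : 0 < ww ε j := Real.exp_pos _
    have h1 : Real.exp ((((i : ℕ) : ℝ) - ((j : ℕ) : ℝ)) * ε) = ww ε j / ww ε i := by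
      unfold ww
      rw [← Real.exp_sub]
      congr 1
      ring
    have h2 : Real.exp (-((((i : ℕ) : ℝ) - ((j : ℕ) : ℝ)) * ε)) = ww ε i / ww ε j := by
      rw [Real.exp_neg, h1, inv_div]
    unfold kap
    rw [Real.sinh_eq, Real.cosh_eq, h1, h2]
    have hs : 0 < Real.sqrt 2 := Real.sqrt_pos.2 (by norm_num)
    have h3 : ww ε i ^ 2 + Real.sqrt 2 * ww ε i * ww ε j + ww ε j ^ 2 ≠ 0 := by positivity
    have h4 : (ww ε j / ww ε i + ww ε i / ww ε j) / 2 + Real.sqrt 2 / 2 ≠ 0 := by positivity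
    field_simp
    ring
  rw [← Complex.ofReal_neg, ← h]
  unfold Dq
  push_cast
  ring

theorem sys_core {L : ℕ} (ρ : Finset (Fin L) → ℂ) (h0 : ρ ∅ = 1) (hodd : ∀ T, Odd T.card → ρ T = 0)
    (ε : ℝ) (hε : ε ≠ 0) (h : Rel ρ (uu ε)) :
    ∃ (x : Fin L → ℂ) (c : ℂ),
      (∀ i : Fin L, 2 * Complex.I *
        ∑ j : Fin L, (kap ((((i : ℕ) : ℝ) - ((j : ℕ) : ℝ)) * ε) : ℂ) * x j = c) ∧
      Complex.I ^ L = c + 2 * Complex.I * ∑ j : Fin L, x j ∧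
      (-Complex.I) ^ L = c - 2 * Complex.I * ∑ j : Fin L, x j ∧
      -(Real.sqrt 2 : ℂ) * (-Complex.I) ^ L * XX ρ ε =
        2 * Complex.I * (Real.sqrt 2 : ℂ) * ∑ j : Fin L, (Real.exp (((j : ℕ) : ℝ) * ε) : ℂ) * x j := by
  have hinj : Function.Injective (ww (L := L) ε) := by
    intro i j hij
    have h1 := Real.exp_injective hij
    have h2 : ((i : ℕ) : ℝ) * ε = ((j : ℕ) : ℝ) * ε := neg_injective h1
    have h3 : ((i : ℕ) : ℝ) = ((j : ℕ) : ℝ) := mul_right_cancel₀ hε h2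
    exact Fin.ext (by exact_mod_cast h3)
  obtain ⟨x, c, hx1, hx2, hx3, hx4⟩ := pf L (ww ε) (fun j => Real.exp_pos _) hinj (phi ρ ε)
    (phi_natDegree ρ ε) (fun j => rel_res ρ hodd ε hε h j)
  set Z : ℂ := ∏ l : Fin L, ((Real.exp (-(((l : ℕ) : ℝ) * ε / 2)) : ℝ) : ℂ) with hZ
  set Y : ℂ := ∏ l : Fin L, ((Real.exp (((l : ℕ) : ℝ) * ε / 2) : ℝ) : ℂ) with hY
  have hZY : Z * Y = 1 := by
    rw [hZ, hY, ← Finset.prod_mul_distrib]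
    refine Finset.prod_eq_one fun l _ => ?_
    rw [← Complex.ofReal_mul, ← Real.exp_add]
    simp
  have hW : ∏ k : Fin L, ((ww ε k : ℝ) : ℂ)⁻¹ = Y ^ 2 := by
    rw [hY, ← Finset.prod_pow]
    refine Finset.prod_congr rfl fun l _ => ?_
    rw [← Complex.ofReal_inv, ← Complex.ofReal_pow, ww, ← Real.exp_neg, ← Real.exp_nat_mul]
    congr 2
    push_cast
    ring
  have hwi : ∀ l : Fin L, ((ww ε l : ℝ) : ℂ)⁻¹ = ((Real.exp (((l : ℕ) : ℝ) * ε) : ℝ) : ℂ) := by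
    intro l
    rw [← Complex.ofReal_inv, ww, ← Real.exp_neg, neg_neg]
  rw [phi_coeff_top ρ h0 hodd] at hx2
  rw [phi_coeff_zero ρ h0 hodd, hW] at hx3
  rw [phi_coeff_one ρ h0 hodd, phi_coeff_zero ρ h0 hodd, hW] at hx4
  rw [← hY] at hx2
  rw [← hZ] at hx3 hx4
  have h2L : (2 : ℂ) ^ L ≠ 0 := pow_ne_zero _ two_ne_zero
  set K : ℂ := (2 * Complex.I) ^ L * Z with hK
  have hI : (2 * Complex.I) ^ L * (-1) ^ L = 2 ^ L * (-Complex.I) ^ L := by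
    rw [← mul_pow, ← mul_pow]
    congr 1
    ring
  have hI2 : (2 * Complex.I) ^ L = 2 ^ L * Complex.I ^ L := mul_pow _ _ _
  refine ⟨fun j => K * x j, K * c, fun i => ?_, ?_, ?_, ?_⟩
  · have h5 := hx1 i
    have h6 : ∑ j : Fin L, (((ww ε i : ℂ) ^ 2 - (ww ε j : ℂ) ^ 2) / Dq (ww ε i) (ww ε j)) * x j =
        -∑ j : Fin L, (kap ((((i : ℕ) : ℝ) - ((j : ℕ) : ℝ)) * ε) : ℂ) * x j := by
      rw [← Finset.sum_neg_distrib]
      exact Finset.sum_congr rfl fun j _ => by rw [quot_eq]; ring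
    rw [h6] at h5
    have h7 : ∑ j : Fin L, (kap ((((i : ℕ) : ℝ) - ((j : ℕ) : ℝ)) * ε) : ℂ) * (K * x j) =
        K * ∑ j : Fin L, (kap ((((i : ℕ) : ℝ) - ((j : ℕ) : ℝ)) * ε) : ℂ) * x j := by
      rw [Finset.mul_sum]
      exact Finset.sum_congr rfl fun j _ => by ring
    rw [h7]
    linear_combination (-K) * h5
  · rw [← Finset.mul_sum]
    have : K * (Y / 2 ^ L) = Complex.I ^ L := by
      rw [hK, hI2]
      field_simp
      linear_combination hZY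
    rw [← this, hx2]
    ring
  · rw [← Finset.mul_sum]
    have : K * ((-1) ^ L * (Z / 2 ^ L) * Y ^ 2) = (-Complex.I) ^ L := by
      have e : K * ((-1) ^ L * (Z / 2 ^ L) * Y ^ 2) = ((2 * Complex.I) ^ L * (-1) ^ L) / 2 ^ L * (Z * Y) ^ 2 := by
        rw [hK]
        ring
      rw [e, hI, hZY]
      field_simp
    rw [← this, hx3]
    ring
  · have e1 : K * ((-1) ^ L * (Z / 2 ^ L) * Y ^ 2) = (-Complex.I) ^ L := by
      have e : K * ((-1) ^ L * (Z / 2 ^ L) * Y ^ 2) = ((2 * Complex.I) ^ L * (-1) ^ L) / 2 ^ L * (Z * Y) ^ 2 := by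
        rw [hK]
        ring
      rw [e, hI, hZY]
      field_simp
    have e2 : ∑ j : Fin L, (Real.exp (((j : ℕ) : ℝ) * ε) : ℂ) * (K * x j) = K * ∑ j : Fin L, x j / (ww ε j : ℂ) := by
      rw [Finset.mul_sum]
      refine Finset.sum_congr rfl fun j _ => ?_
      rw [div_eq_mul_inv, hwi]
      ring
    have e3 : (∑ k : Fin L, ((ww ε k : ℝ) : ℂ)⁻¹) = ∑ k : Fin L, ((Real.exp (((k : ℕ) : ℝ) * ε) : ℝ) : ℂ) :=
      Finset.sum_congr rfl fun k _ => hwi k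
    have hs : (Real.sqrt 2 : ℂ) * (Real.sqrt 2 : ℂ) = 2 := by
      rw [← Complex.ofReal_mul, Real.mul_self_sqrt (by norm_num)]
      norm_num
    rw [e2]
    rw [e3] at hx4
    unfold XX
    rw [← e1]
    set S : ℂ := ∑ k : Fin L, ((Real.exp (((k : ℕ) : ℝ) * ε) : ℝ) : ℂ)
    set R : ℂ := ∑ T ∈ (univ : Finset (Finset (Fin L))).filter (fun T => T.card = 2),
        ρ T * ∏ l ∈ T, ((Real.exp (((l : ℕ) : ℝ) * ε / 2) : ℝ) : ℂ)
    linear_combination K * hx4 + (2 * K * ((-1) ^ L * (Z / 2 ^ L) * Y ^ 2) * R) * hs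

theorem sys_even {n : ℕ} (ρ : Finset (Fin (2 * n)) → ℂ) (h0 : ρ ∅ = 1) (hodd : ∀ T, Odd T.card → ρ T = 0)
    (ε : ℝ) (hε : ε ≠ 0) (h : Rel ρ (uu ε)) :
    ∃ x : Fin (2 * n) → ℂ,
      (∀ i : Fin (2 * n), ∑ j : Fin (2 * n), (kap ((((i : ℕ) : ℝ) - ((j : ℕ) : ℝ)) * ε) : ℂ) * x j = -PP (2 * n)) ∧
      ∑ j : Fin (2 * n), (Real.exp (((j : ℕ) : ℝ) * ε) : ℂ) * x j = PP (2 * n) * XX ρ ε := by
  obtain ⟨x, c, h1, h2, h3, h4⟩ := sys_core ρ h0 hodd ε hε h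
  have hI : (-Complex.I) ^ (2 * n) = Complex.I ^ (2 * n) := by
    rw [pow_mul, pow_mul, neg_sq]
  rw [hI] at h3
  have hc : c = Complex.I ^ (2 * n) := by linear_combination -(h2 + h3) / 2
  have hI1 : Complex.I * Complex.I = -1 := Complex.I_mul_I
  have hs : (Real.sqrt 2 : ℂ) ≠ 0 := by
    have : Real.sqrt 2 ≠ 0 := (Real.sqrt_pos.2 (by norm_num)).ne'
    exact_mod_cast this
  refine ⟨x, fun i => ?_, ?_⟩
  · have h5 := h1 i
    rw [hc] at h5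
    unfold PP
    rw [hI]
    have h6 : Complex.I * (2 * Complex.I * ∑ j : Fin (2 * n), (kap ((((i : ℕ) : ℝ) - ((j : ℕ) : ℝ)) * ε) : ℂ) * x j)
        = Complex.I * Complex.I ^ (2 * n) := by rw [h5]
    linear_combination (-1 / 2) * h6 + (∑ j : Fin (2 * n), (kap ((((i : ℕ) : ℝ) - ((j : ℕ) : ℝ)) * ε) : ℂ) * x j) * hI1
  · have h7 : (Real.sqrt 2 : ℂ) * (2 * Complex.I * ∑ j : Fin (2 * n), (Real.exp (((j : ℕ) : ℝ) * ε) : ℂ) * x j) =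
        (Real.sqrt 2 : ℂ) * (-((-Complex.I) ^ (2 * n)) * XX ρ ε) := by
      linear_combination -h4
    have h8 := mul_left_cancel₀ hs h7
    unfold PP
    linear_combination (-Complex.I / 2) * h8 +
      (∑ j : Fin (2 * n), (Real.exp (((j : ℕ) : ℝ) * ε) : ℂ) * x j) * hI1

theorem sys_odd {n : ℕ} (ρ : Finset (Fin (2 * n + 1)) → ℂ) (h0 : ρ ∅ = 1) (hodd : ∀ T, Odd T.card → ρ T = 0)
    (ε : ℝ) (hε : ε ≠ 0) (h : Rel ρ (uu ε)) :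
    ∃ x : Fin (2 * n + 1) → ℂ, ∑ j : Fin (2 * n + 1), x j = PP (2 * n + 1) ∧
      (∀ i : Fin (2 * n + 1),
        ∑ j : Fin (2 * n + 1), (kap ((((i : ℕ) : ℝ) - ((j : ℕ) : ℝ)) * ε) : ℂ) * x j = 0) ∧
      ∑ j : Fin (2 * n + 1), (Real.exp (((j : ℕ) : ℝ) * ε) : ℂ) * x j = PP (2 * n + 1) * XX ρ ε := by
  obtain ⟨x, c, h1, h2, h3, h4⟩ := sys_core ρ h0 hodd ε hε h
  have hI : (-Complex.I) ^ (2 * n + 1) = -Complex.I ^ (2 * n + 1) := by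
    rw [pow_succ, pow_succ, pow_mul, pow_mul, neg_sq]
    ring
  have hc : c = 0 := by
    rw [hI] at h3
    linear_combination -(h2 + h3) / 2
  have hI1 : Complex.I * Complex.I = -1 := Complex.I_mul_I
  have hI0 : (2 : ℂ) * Complex.I ≠ 0 := by simp
  have hs : (Real.sqrt 2 : ℂ) ≠ 0 := by
    have : Real.sqrt 2 ≠ 0 := (Real.sqrt_pos.2 (by norm_num)).ne'
    exact_mod_cast this
  refine ⟨x, ?_, fun i => ?_, ?_⟩
  · unfold PP
    rw [hc] at h3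
    linear_combination (-Complex.I / 2) * h3 + (∑ j : Fin (2 * n + 1), x j) * hI1
  · have h5 := h1 i
    rw [hc] at h5
    exact (mul_eq_zero.1 h5).resolve_left hI0
  · have h7 : (Real.sqrt 2 : ℂ) * (2 * Complex.I * ∑ j : Fin (2 * n + 1), (Real.exp (((j : ℕ) : ℝ) * ε) : ℂ) * x j) =
        (Real.sqrt 2 : ℂ) * (-((-Complex.I) ^ (2 * n + 1)) * XX ρ ε) := by
      linear_combination -h4
    have h8 := mul_left_cancel₀ hs h7
    unfold PP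
    linear_combination (-Complex.I / 2) * h8 +
      (∑ j : Fin (2 * n + 1), (Real.exp (((j : ℕ) : ℝ) * ε) : ℂ) * x j) * hI1

end Pool.Agent.BEX.A3
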