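import Pool.Agent.BEX.A3.Main
import Pool.Agent.BEX.A3.Sys

/-!
# BEX/A3/Result: the interface theorems of part A3

INPUT (part A2, step 3 of note 3044): for small real `ε ≠ 0` numbers `ρ ε T` with the relations `Rel` at the
rapidities `u_j = i j ε / 2`, converging to `ρ0 T`.  OUTPUT: `L - 2√2 ∑_{|T|=2} ρ0 T` is `s(-1)` resp. `p(-1)/p(0)`.
-/

namespace Pool.Agent.BEX.A3

open Finset Polynomial Filter Topology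

theorem XX_tendsto {L : ℕ} (ρ : ℝ → Finset (Fin L) → ℂ) (ρ0 : Finset (Fin L) → ℂ)
    (hlim : ∀ T, Tendsto (fun ε => ρ ε T) (𝓝[≠] 0) (𝓝 (ρ0 T))) :
    Tendsto (fun ε => XX (ρ ε) ε) (𝓝[≠] 0) (𝓝 ((L : ℂ) - 2 * (Real.sqrt 2 : ℂ) *
      ∑ T ∈ (univ : Finset (Finset (Fin L))).filter (fun T => T.card = 2), ρ0 T)) := by
  have he : ∀ a : ℝ, Tendsto (fun ε : ℝ => ((Real.exp (a * ε) : ℝ) : ℂ)) (𝓝[≠] 0) (𝓝 1) := by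
    intro a
    have h : Continuous fun ε : ℝ => ((Real.exp (a * ε) : ℝ) : ℂ) := by fun_prop
    have h2 : Tendsto (fun ε : ℝ => ((Real.exp (a * ε) : ℝ) : ℂ)) (𝓝[≠] 0)
        (𝓝 ((Real.exp (a * 0) : ℝ) : ℂ)) := (h.tendsto 0).mono_left nhdsWithin_le_nhds
    simpa using h2
  have he2 : ∀ a : ℝ, Tendsto (fun ε : ℝ => ((Real.exp (a * ε / 2) : ℝ) : ℂ)) (𝓝[≠] 0) (𝓝 1) := by
    intro a
    have h := he (a / 2)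
    refine h.congr fun ε => ?_
    congr 2
    ring
  unfold XX
  refine Tendsto.sub ?_ (Tendsto.const_mul _ ?_)
  · have h : Tendsto (fun ε : ℝ => ∑ k : Fin L, ((Real.exp (((k : ℕ) : ℝ) * ε) : ℝ) : ℂ)) (𝓝[≠] 0)
        (𝓝 (∑ k : Fin L, (1 : ℂ))) := tendsto_finsetSum _ fun k _ => he _
    simpa using h
  · refine tendsto_finsetSum _ fun T _ => ?_
    have h : Tendsto (fun ε : ℝ => ∏ l ∈ T, ((Real.exp (((l : ℕ) : ℝ) * ε / 2) : ℝ) : ℂ)) (𝓝[≠] 0)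
        (𝓝 (∏ l ∈ T, (1 : ℂ))) := tendsto_finsetProd _ fun l _ => he2 _
    have h2 := (hlim T).mul h
    simpa using h2

/-- **Even circumference.** -/
theorem result_even (n : ℕ) (hn : 1 ≤ n) (ρ : ℝ → Finset (Fin (2 * n)) → ℂ) (ρ0 : Finset (Fin (2 * n)) → ℂ)
    (h0 : ∀ᶠ ε in 𝓝[≠] (0 : ℝ), ρ ε ∅ = 1)
    (hodd : ∀ᶠ ε in 𝓝[≠] (0 : ℝ), ∀ T, Odd T.card → ρ ε T = 0)
    (hrel : ∀ᶠ ε in 𝓝[≠] (0 : ℝ), Rel (ρ ε) (uu ε))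
    (hlim : ∀ T, Tendsto (fun ε => ρ ε T) (𝓝[≠] 0) (𝓝 (ρ0 T))) :
    ∃ s : ℝ[X], s.natDegree < n ∧ (∀ q : ℝ[X], q.natDegree < n → ip s q = q.eval 0) ∧
      ((2 * n : ℕ) : ℂ) - 2 * (Real.sqrt 2 : ℂ) *
        ∑ T ∈ (univ : Finset (Finset (Fin (2 * n)))).filter (fun T => T.card = 2), ρ0 T =
          ((s.eval (-1) : ℝ) : ℂ) := by
  classical
  have hex : ∀ ε : ℝ, ∃ x : Fin (2 * n) → ℂ, (ρ ε ∅ = 1 ∧ (∀ T, Odd T.card → ρ ε T = 0) ∧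
      Rel (ρ ε) (uu ε) ∧ ε ≠ 0) →
      (∀ i : Fin (2 * n), ∑ j : Fin (2 * n), (kap ((((i : ℕ) : ℝ) - ((j : ℕ) : ℝ)) * ε) : ℂ) * x j = -PP (2 * n)) ∧
      ∑ j : Fin (2 * n), (Real.exp (((j : ℕ) : ℝ) * ε) : ℂ) * x j = PP (2 * n) * XX (ρ ε) ε := by
    intro ε
    by_cases h : ρ ε ∅ = 1 ∧ (∀ T, Odd T.card → ρ ε T = 0) ∧ Rel (ρ ε) (uu ε) ∧ ε ≠ 0
    · obtain ⟨x, hx⟩ := sys_even (ρ ε) h.1 h.2.1 ε h.2.2.2 h.2.2.1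
      exact ⟨x, fun _ => hx⟩
    · exact ⟨0, fun h' => absurd h' h⟩
  choose x hx using hex
  have hall : ∀ᶠ ε in 𝓝[≠] (0 : ℝ), ρ ε ∅ = 1 ∧ (∀ T, Odd T.card → ρ ε T = 0) ∧
      Rel (ρ ε) (uu ε) ∧ ε ≠ 0 := by
    filter_upwards [h0, hodd, hrel, self_mem_nhdsWithin] with ε h1 h2 h3 h4
    exact ⟨h1, h2, h3, h4⟩
  obtain ⟨s, hs, hs1, hs2⟩ := even_limit n hn x (fun _ => PP (2 * n)) (fun ε => PP (2 * n) * XX (ρ ε) ε)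
    (Filter.Eventually.of_forall fun _ => PP_ne _)
    (hall.mono fun ε h => (hx ε h).1) (hall.mono fun ε h => (hx ε h).2)
  refine ⟨s, hs, hs1, ?_⟩
  have h5 : Tendsto (fun ε => XX (ρ ε) ε) (𝓝[≠] 0) (𝓝 ((s.eval (-1) : ℝ) : ℂ)) := by
    refine hs2.congr fun ε => ?_
    rw [mul_div_cancel_left₀ _ (PP_ne _)]
  have h6 := XX_tendsto ρ ρ0 hlim
  exact tendsto_nhds_unique h6 h5

/-- **Odd circumference.** -/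
theorem result_odd (n : ℕ) (ρ : ℝ → Finset (Fin (2 * n + 1)) → ℂ) (ρ0 : Finset (Fin (2 * n + 1)) → ℂ)
    (h0 : ∀ᶠ ε in 𝓝[≠] (0 : ℝ), ρ ε ∅ = 1)
    (hodd : ∀ᶠ ε in 𝓝[≠] (0 : ℝ), ∀ T, Odd T.card → ρ ε T = 0)
    (hrel : ∀ᶠ ε in 𝓝[≠] (0 : ℝ), Rel (ρ ε) (uu ε))
    (hlim : ∀ T, Tendsto (fun ε => ρ ε T) (𝓝[≠] 0) (𝓝 (ρ0 T))) :
    ∃ p : ℝ[X], p.natDegree ≤ n ∧ (∀ q : ℝ[X], q.natDegree < n → ip p q = 0) ∧ p.eval 0 = 1 ∧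
      ((2 * n + 1 : ℕ) : ℂ) - 2 * (Real.sqrt 2 : ℂ) *
        ∑ T ∈ (univ : Finset (Finset (Fin (2 * n + 1)))).filter (fun T => T.card = 2), ρ0 T =
          ((p.eval (-1) : ℝ) : ℂ) := by
  classical
  have hex : ∀ ε : ℝ, ∃ x : Fin (2 * n + 1) → ℂ, (ρ ε ∅ = 1 ∧ (∀ T, Odd T.card → ρ ε T = 0) ∧
      Rel (ρ ε) (uu ε) ∧ ε ≠ 0) →
      ∑ j : Fin (2 * n + 1), x j = PP (2 * n + 1) ∧
      (∀ i : Fin (2 * n + 1),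
        ∑ j : Fin (2 * n + 1), (kap ((((i : ℕ) : ℝ) - ((j : ℕ) : ℝ)) * ε) : ℂ) * x j = 0) ∧
      ∑ j : Fin (2 * n + 1), (Real.exp (((j : ℕ) : ℝ) * ε) : ℂ) * x j = PP (2 * n + 1) * XX (ρ ε) ε := by
    intro ε
    by_cases h : ρ ε ∅ = 1 ∧ (∀ T, Odd T.card → ρ ε T = 0) ∧ Rel (ρ ε) (uu ε) ∧ ε ≠ 0
    · obtain ⟨x, hx⟩ := sys_odd (ρ ε) h.1 h.2.1 ε h.2.2.2 h.2.2.1
      exact ⟨x, fun _ => hx⟩
    · exact ⟨0, fun h' => absurd h' h⟩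
  choose x hx using hex
  have hall : ∀ᶠ ε in 𝓝[≠] (0 : ℝ), ρ ε ∅ = 1 ∧ (∀ T, Odd T.card → ρ ε T = 0) ∧
      Rel (ρ ε) (uu ε) ∧ ε ≠ 0 := by
    filter_upwards [h0, hodd, hrel, self_mem_nhdsWithin] with ε h1 h2 h3 h4
    exact ⟨h1, h2, h3, h4⟩
  obtain ⟨p, hp, hp1, hp0, hp2⟩ := odd_limit n x (fun _ => PP (2 * n + 1))
    (fun ε => PP (2 * n + 1) * XX (ρ ε) ε)
    (Filter.Eventually.of_forall fun _ => PP_ne _) (hall.mono fun ε h => (hx ε h).1)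
    (hall.mono fun ε h => (hx ε h).2.1) (hall.mono fun ε h => (hx ε h).2.2)
  refine ⟨p, hp, hp1, hp0, ?_⟩
  have h5 : Tendsto (fun ε => XX (ρ ε) ε) (𝓝[≠] 0) (𝓝 ((p.eval (-1) : ℝ) : ℂ)) := by
    refine hp2.congr fun ε => ?_
    rw [mul_div_cancel_left₀ _ (PP_ne _)]
  have h6 := XX_tendsto ρ ρ0 hlim
  exact tendsto_nhds_unique h6 h5

end Pool.Agent.BEX.A3
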