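import Pool.Agent.BEX.A3.PF

/-!
# BEX/A3/Trig: from the relations of step 3 of note 3044 to the linear system

`u_j = i j ε / 2`, `z_j = e^{i u_j} = e^{-jε/2}`, `w_j = z_j² = e^{-jε}`.
PAPER PROOF.  `cos (v - u) = e^{-iv} z (1 + w/w_u)/2`, so `Phi(v) = e^{-iLv} φ(w)` with
`φ = ∑_{|T| even} ρ(T) 2^{|T|-L} w^{|T|/2} ∏_{l∉T} z_l (1 + w/w_l)` (`phi`), of degree `≤ L`, with
`φ_0 = 2^{-L} ∏ z_l`, `φ_L = 2^{-L} ∏ z_l⁻¹`, `φ_1 = φ_0 (∑ 1/w_l + 4 ∑_{|T|=2} ρ(T)/∏_{l∈T} z_l)`.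
`rel_res`: the relation of step 3 is the hypothesis `hres` of `pf`:
`sin (v - u_k) = e^{-iv} z_k⁻¹ (w - w_k)/(2i)`, `sin(v-u-a) sin(v-u+a) = e^{-2iv} z⁻² Dq w w_u/(2i)²`, `a = 3π/8`,
and `sin(u+a)/sin(u+2a) = sin(u+3λ)/sin(2λ-u)`, `sin(u-a)/sin(u-2a) = sin(3λ-u)/sin(2λ+u)`, `λ = π/8`; `kk(u) ≠ 0` for
purely imaginary `u`.
`system`: apply `pf` to `K φ`, `K = (2i)^L ∏ z_k` and divide; `(w_i²-w_j²)/Dq = -kap((i-j)ε)`.
-/

namespace Pool.Agent.BEX.A3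

open Finset Polynomial

/-- the product functional applied to a state: `∑_T ρ(T) ∏_{l ∉ T} cos (v - u_l)` -/
noncomputable def Phi {L : ℕ} (ρ : Finset (Fin L) → ℂ) (u : Fin L → ℂ) (v : ℂ) : ℂ :=
  ∑ T : Finset (Fin L), ρ T * ∏ l ∈ Tᶜ, Complex.cos (v - u l)

/-- `k(u) = sin(2λ+u) sin(3λ+u)`, `λ = π/8` -/
noncomputable def kk (u : ℂ) : ℂ := Complex.sin (Real.pi / 4 + u) * Complex.sin (3 * Real.pi / 8 + u)

/-- the relations of step 3 -/
def Rel {L : ℕ} (ρ : Finset (Fin L) → ℂ) (u : Fin L → ℂ) : Prop :=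
  ∀ j : Fin L, (∏ k ∈ univ.erase j, kk (u j - u k)) * Phi ρ u (u j + 3 * Real.pi / 8) =
    (∏ k ∈ univ.erase j, kk (u k - u j)) * Phi ρ u (u j - 3 * Real.pi / 8)

/-- the rapidities -/
noncomputable def uu {L : ℕ} (ε : ℝ) (j : Fin L) : ℂ := Complex.I * ((j : ℕ) : ℂ) * ε / 2

/-- `w_j = e^{-jε}` -/
noncomputable def ww {L : ℕ} (ε : ℝ) (j : Fin L) : ℝ := Real.exp (-(((j : ℕ) : ℝ) * ε))

/-- the polynomial `φ` -/
noncomputable def phi {L : ℕ} (ρ : Finset (Fin L) → ℂ) (ε : ℝ) : ℂ[X] :=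
  ∑ T : Finset (Fin L), C (ρ T * 2 ^ T.card / 2 ^ L) * X ^ (T.card / 2) *
    ∏ l ∈ Tᶜ, (C ((Real.exp (-(((l : ℕ) : ℝ) * ε / 2)) : ℝ) : ℂ) * (1 + C (((ww ε l : ℝ) : ℂ)⁻¹) * X))

private theorem Trig_card {L : ℕ} (T : Finset (Fin L)) : Tᶜ.card + T.card = L := by
  have h := card_add_card_compl T
  rw [Fintype.card_fin] at h
  omega

private theorem Trig_cos {L : ℕ} (ε : ℝ) (v : ℂ) (l : Fin L) : Complex.cos (v - uu ε l) =
    Complex.exp (-(Complex.I * v)) / 2 * (((Real.exp (-(((l : ℕ) : ℝ) * ε / 2)) : ℝ) : ℂ) *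
      (1 + ((ww ε l : ℝ) : ℂ)⁻¹ * Complex.exp (2 * Complex.I * v))) := by
  unfold ww uu
  rw [← Complex.ofReal_inv, ← Real.exp_neg, neg_neg, Complex.ofReal_exp, Complex.ofReal_exp]
  unfold Complex.cos
  have h1 : (v - Complex.I * ((l : ℕ) : ℂ) * ε / 2) * Complex.I =
      -(Complex.I * v) + ((-(((l : ℕ) : ℝ) * ε / 2) : ℝ) : ℂ) + (((((l : ℕ) : ℝ) * ε : ℝ) : ℂ) +
        2 * Complex.I * v) := by
    push_cast
    linear_combination (-(((l : ℕ) : ℂ) * ε / 2)) * Complex.I_sq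
  have h2 : -(v - Complex.I * ((l : ℕ) : ℂ) * ε / 2) * Complex.I =
      -(Complex.I * v) + ((-(((l : ℕ) : ℝ) * ε / 2) : ℝ) : ℂ) := by
    push_cast
    linear_combination ((((l : ℕ) : ℂ) * ε / 2)) * Complex.I_sq
  rw [h1, h2, Complex.exp_add, Complex.exp_add (((((l : ℕ) : ℝ) * ε : ℝ) : ℂ)), Complex.exp_add]
  ring

theorem phi_eval {L : ℕ} (ρ : Finset (Fin L) → ℂ) (hodd : ∀ T, Odd T.card → ρ T = 0) (ε : ℝ) (v : ℂ) :
    Phi ρ (uu ε) v = Complex.exp (-(L : ℂ) * Complex.I * v) * (phi ρ ε).eval (Complex.exp (2 * Complex.I * v)) := by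
  unfold Phi phi
  rw [eval_finsetSum, mul_sum]
  refine sum_congr rfl fun T _ => ?_
  rcases Nat.even_or_odd T.card with hT | hT
  · obtain ⟨k, hk⟩ := hT
    have hc := Trig_card T
    rw [eval_mul, eval_mul, eval_C, eval_pow, eval_X, eval_prod]
    have h1 : ∏ l ∈ Tᶜ, Complex.cos (v - uu ε l) = (Complex.exp (-(Complex.I * v)) / 2) ^ Tᶜ.card *
        ∏ l ∈ Tᶜ, (((Real.exp (-(((l : ℕ) : ℝ) * ε / 2)) : ℝ) : ℂ) *
          (1 + ((ww ε l : ℝ) : ℂ)⁻¹ * Complex.exp (2 * Complex.I * v))) := by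
      rw [← prod_const, ← prod_mul_distrib]
      exact prod_congr rfl fun l _ => Trig_cos ε v l
    have h2 : ∏ l ∈ Tᶜ, eval (Complex.exp (2 * Complex.I * v))
        (C ((Real.exp (-(((l : ℕ) : ℝ) * ε / 2)) : ℝ) : ℂ) * (1 + C (((ww ε l : ℝ) : ℂ)⁻¹) * X)) =
        ∏ l ∈ Tᶜ, (((Real.exp (-(((l : ℕ) : ℝ) * ε / 2)) : ℝ) : ℂ) *
          (1 + ((ww ε l : ℝ) : ℂ)⁻¹ * Complex.exp (2 * Complex.I * v))) := by
      refine prod_congr rfl fun l _ => ?_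
      rw [eval_mul, eval_C, eval_add, eval_one, eval_mul, eval_C, eval_X]
    rw [h1, h2]
    have h3 : (Complex.exp (-(Complex.I * v)) / 2) ^ Tᶜ.card =
        Complex.exp (-(L : ℂ) * Complex.I * v) * (2 ^ T.card / 2 ^ L *
          Complex.exp (2 * Complex.I * v) ^ (T.card / 2)) := by
      have h4 : (2 : ℂ) ^ T.card / 2 ^ L = 1 / 2 ^ Tᶜ.card := by
        rw [div_eq_div_iff (pow_ne_zero _ two_ne_zero) (pow_ne_zero _ two_ne_zero), one_mul, ← pow_add,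
          add_comm, hc]
      have h5 : Complex.exp (-(Complex.I * v)) ^ Tᶜ.card = Complex.exp (-(L : ℂ) * Complex.I * v) *
          Complex.exp (2 * Complex.I * v) ^ (T.card / 2) := by
        rw [← Complex.exp_nat_mul, ← Complex.exp_nat_mul, ← Complex.exp_add]
        congr 1
        have h6 : (L : ℂ) = (Tᶜ.card : ℂ) + 2 * (k : ℂ) := by
          have h7 : ((Tᶜ.card + T.card : ℕ) : ℂ) = (L : ℂ) := congrArg (fun n : ℕ => (n : ℂ)) hc
          rw [← h7, hk]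
          push_cast
          ring
        rw [h6, show T.card / 2 = k by omega]
        ring
      rw [h4, div_pow, h5]
      ring
    rw [h3]
    ring
  · rw [hodd T hT]
    simp

private theorem Trig_factor (z w : ℂ) : (C z * (1 + C w * X) : ℂ[X]).natDegree ≤ 1 := by
  refine (natDegree_C_mul_le _ _).trans ?_
  refine (natDegree_add_le _ _).trans ?_
  rw [natDegree_one]
  exact max_le (Nat.zero_le 1) ((natDegree_C_mul_le _ _).trans natDegree_X_le)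

private theorem Trig_deg {L : ℕ} (ε : ℝ) (a : ℂ) (T : Finset (Fin L)) : (C a * X ^ (T.card / 2) *
    ∏ l ∈ Tᶜ, (C ((Real.exp (-(((l : ℕ) : ℝ) * ε / 2)) : ℝ) : ℂ) *
      (1 + C (((ww ε l : ℝ) : ℂ)⁻¹) * X))).natDegree ≤ T.card / 2 + Tᶜ.card := by
  refine natDegree_mul_le.trans (Nat.add_le_add (natDegree_C_mul_X_pow_le _ _) ?_)
  refine (natDegree_prod_le _ _).trans ?_
  refine (sum_le_sum fun l _ => Trig_factor _ _).trans ?_
  rw [sum_const, smul_eq_mul, mul_one]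

theorem phi_natDegree {L : ℕ} (ρ : Finset (Fin L) → ℂ) (ε : ℝ) : (phi ρ ε).natDegree ≤ L := by
  unfold phi
  refine natDegree_sum_le_of_forall_le _ _ fun T _ => ?_
  refine (Trig_deg ε _ T).trans ?_
  have hc := Trig_card T
  omega

private theorem Trig_c0 {L : ℕ} (z w : Fin L → ℂ) (s : Finset (Fin L)) :
    (∏ l ∈ s, (C (z l) * (1 + C (w l) * X)) : ℂ[X]).coeff 0 = ∏ l ∈ s, z l := by
  rw [coeff_zero_eq_eval_zero, eval_prod]
  refine prod_congr rfl fun l _ => ?_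
  simp

private theorem Trig_c1 {L : ℕ} (z w : Fin L → ℂ) (s : Finset (Fin L)) :
    (∏ l ∈ s, (C (z l) * (1 + C (w l) * X)) : ℂ[X]).coeff 1 = (∏ l ∈ s, z l) * ∑ l ∈ s, w l := by
  induction s using Finset.induction_on with
  | empty => simp [coeff_one]
  | insert a s ha ih =>
    rw [prod_insert ha, prod_insert ha, sum_insert ha, coeff_mul, Nat.sum_antidiagonal_eq_sum_range_succ_mk,
      sum_range_succ, sum_range_one]
    simp only [Nat.sub_zero, Nat.sub_self, Trig_c0, ih]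
    have h0 : (C (z a) * (1 + C (w a) * X) : ℂ[X]).coeff 0 = z a := by simp
    have h1 : (C (z a) * (1 + C (w a) * X) : ℂ[X]).coeff 1 = z a * w a := by simp [coeff_one]
    rw [h0, h1]
    ring

theorem phi_coeff_zero {L : ℕ} (ρ : Finset (Fin L) → ℂ) (h0 : ρ ∅ = 1) (hodd : ∀ T, Odd T.card → ρ T = 0) (ε : ℝ) :
    (phi ρ ε).coeff 0 = (∏ l : Fin L, ((Real.exp (-(((l : ℕ) : ℝ) * ε / 2)) : ℝ) : ℂ)) / 2 ^ L := by
  unfold phi
  rw [finsetSum_coeff, sum_eq_single ∅]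
  · rw [card_empty, h0, Nat.zero_div, pow_zero, pow_zero, mul_one, mul_one, coeff_C_mul, compl_empty,
      Trig_c0]
    ring
  · intro T _ hT
    rcases Nat.even_or_odd T.card with hT2 | hT2
    · have h1 : 0 < T.card := card_pos.2 (nonempty_iff_ne_empty.2 hT)
      have h2 : T.card / 2 ≠ 0 := by
        obtain ⟨k, hk⟩ := hT2
        omega
      rw [coeff_zero_eq_eval_zero, eval_mul, eval_mul, eval_pow, eval_X, zero_pow h2]
      ring
    · rw [hodd T hT2]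
      simp
  · intro h
    exact absurd (mem_univ _) h

theorem phi_coeff_one {L : ℕ} (ρ : Finset (Fin L) → ℂ) (h0 : ρ ∅ = 1) (hodd : ∀ T, Odd T.card → ρ T = 0) (ε : ℝ) :
    (phi ρ ε).coeff 1 = (phi ρ ε).coeff 0 * (∑ l : Fin L, ((ww ε l : ℝ) : ℂ)⁻¹ +
      4 * ∑ T ∈ (univ : Finset (Finset (Fin L))).filter (fun T => T.card = 2),
        ρ T * ∏ l ∈ T, ((Real.exp (((l : ℕ) : ℝ) * ε / 2) : ℝ) : ℂ)) := by
  rw [phi_coeff_zero ρ h0 hodd ε]
  unfold phi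
  rw [finsetSum_coeff, ← add_sum_erase univ _ (mem_univ ∅)]
  have hE : (C (ρ ∅ * 2 ^ (∅ : Finset (Fin L)).card / 2 ^ L) * X ^ ((∅ : Finset (Fin L)).card / 2) *
      ∏ l ∈ (∅ : Finset (Fin L))ᶜ, (C ((Real.exp (-(((l : ℕ) : ℝ) * ε / 2)) : ℝ) : ℂ) *
        (1 + C (((ww ε l : ℝ) : ℂ)⁻¹) * X))).coeff 1 =
      (∏ l : Fin L, ((Real.exp (-(((l : ℕ) : ℝ) * ε / 2)) : ℝ) : ℂ)) / 2 ^ L *
        ∑ l : Fin L, ((ww ε l : ℝ) : ℂ)⁻¹ := by
    rw [card_empty, h0, Nat.zero_div, pow_zero, pow_zero, mul_one, mul_one, coeff_C_mul, compl_empty,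
      Trig_c1]
    ring
  rw [hE, mul_add]
  congr 1
  rw [mul_sum, mul_sum, sum_filter, ← add_sum_erase univ _ (mem_univ (∅ : Finset (Fin L))), card_empty,
    if_neg (by norm_num), zero_add]
  refine sum_congr rfl fun T hT => ?_
  have hT0 : T ≠ ∅ := (mem_erase.1 hT).1
  rcases Nat.even_or_odd T.card with hT2 | hT2
  · have h1 : 0 < T.card := card_pos.2 (nonempty_iff_ne_empty.2 hT0)
    obtain ⟨k, hk⟩ := hT2
    by_cases h2 : T.card = 2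
    · rw [if_pos h2, h2, show 2 / 2 = 1 from rfl, pow_one]
      rw [mul_assoc, coeff_C_mul, coeff_X_mul, Trig_c0]
      have h3 : (∏ l : Fin L, ((Real.exp (-(((l : ℕ) : ℝ) * ε / 2)) : ℝ) : ℂ)) *
          ∏ l ∈ T, ((Real.exp (((l : ℕ) : ℝ) * ε / 2) : ℝ) : ℂ) =
          ∏ l ∈ Tᶜ, ((Real.exp (-(((l : ℕ) : ℝ) * ε / 2)) : ℝ) : ℂ) := by
        rw [← prod_mul_prod_compl T, mul_comm, ← mul_assoc, ← prod_mul_distrib]
        have h4 : ∏ l ∈ T, (((Real.exp (((l : ℕ) : ℝ) * ε / 2) : ℝ) : ℂ) *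
            ((Real.exp (-(((l : ℕ) : ℝ) * ε / 2)) : ℝ) : ℂ)) = 1 := by
          refine prod_eq_one fun l _ => ?_
          rw [← Complex.ofReal_mul, ← Real.exp_add, add_neg_cancel, Real.exp_zero, Complex.ofReal_one]
        rw [h4, one_mul]
      rw [← h3]
      ring
    · simp only [if_neg h2, mul_zero]
      have h3 : 2 ≤ T.card / 2 := by omega
      obtain ⟨r, hr⟩ := Nat.exists_eq_add_of_le h3
      rw [hr, show C (ρ T * 2 ^ T.card / 2 ^ L) * X ^ (2 + r) * ∏ l ∈ Tᶜ,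
          (C ((Real.exp (-(((l : ℕ) : ℝ) * ε / 2)) : ℝ) : ℂ) * (1 + C (((ww ε l : ℝ) : ℂ)⁻¹) * X)) =
        (C (ρ T * 2 ^ T.card / 2 ^ L) * X ^ r * ∏ l ∈ Tᶜ,
          (C ((Real.exp (-(((l : ℕ) : ℝ) * ε / 2)) : ℝ) : ℂ) * (1 + C (((ww ε l : ℝ) : ℂ)⁻¹) * X))) *
          X ^ 2 by ring, coeff_mul_X_pow']
      norm_num
  · rw [hodd T hT2]
    have h2 : T.card ≠ 2 := by
      rintro h
      rw [h] at hT2
      exact absurd hT2 (by decide)
    rw [if_neg h2]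
    simp

theorem phi_coeff_top {L : ℕ} (ρ : Finset (Fin L) → ℂ) (h0 : ρ ∅ = 1) (hodd : ∀ T, Odd T.card → ρ T = 0) (ε : ℝ) :
    (phi ρ ε).coeff L = (∏ l : Fin L, ((Real.exp (((l : ℕ) : ℝ) * ε / 2) : ℝ) : ℂ)) / 2 ^ L := by
  unfold phi
  rw [finsetSum_coeff, sum_eq_single ∅]
  · rw [card_empty, h0, Nat.zero_div, pow_zero, pow_zero, mul_one, mul_one, coeff_C_mul, compl_empty]
    have h1 := coeff_prod_of_natDegree_le (s := (univ : Finset (Fin L)))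
      (fun l : Fin L => C ((Real.exp (-(((l : ℕ) : ℝ) * ε / 2)) : ℝ) : ℂ) *
        (1 + C (((ww ε l : ℝ) : ℂ)⁻¹) * X)) 1 (fun l _ => Trig_factor _ _)
    rw [card_univ, Fintype.card_fin, mul_one] at h1
    rw [h1, one_div, inv_mul_eq_div]
    congr 1
    refine prod_congr rfl fun l _ => ?_
    have h2 : (C ((Real.exp (-(((l : ℕ) : ℝ) * ε / 2)) : ℝ) : ℂ) *
        (1 + C (((ww ε l : ℝ) : ℂ)⁻¹) * X) : ℂ[X]).coeff 1 =
        ((Real.exp (-(((l : ℕ) : ℝ) * ε / 2)) : ℝ) : ℂ) * ((ww ε l : ℝ) : ℂ)⁻¹ := by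
      simp [coeff_one]
    rw [h2]
    unfold ww
    rw [← Complex.ofReal_inv, ← Real.exp_neg, neg_neg, ← Complex.ofReal_mul, ← Real.exp_add]
    congr 2
    ring
  · intro T _ hT
    have h1 : 0 < T.card := card_pos.2 (nonempty_iff_ne_empty.2 hT)
    have hc := Trig_card T
    exact coeff_eq_zero_of_natDegree_lt ((Trig_deg ε _ T).trans_lt (by omega))
  · intro h
    exact absurd (mem_univ _) h

end Pool.Agent.BEX.A3
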